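import Pool.Agent.K7.H40.GM.Cmp
import Pool.Agent.Y378.QR.Wl
import Pool.Agent.Y264.QR.All

/-!
# The eigenvalues of a surface in terms of its `C¹` functions
-/

set_option autoImplicit false

open Set Filter Topology MeasureTheory
open scoped Real ContDiff

noncomputable section

namespace Pool.Agent.K7.H40.GM

open Pool.Agent.Y262.QE Pool.Agent.Y264.QR Pool.Agent.Y592.QE Pool.Agent.Y378.QR

section

variable {M : Type} [MetricSpace M] [CompactSpace M] [MeasurableSpace M] [BorelSpace M]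

theorem conf_zero (D : Data M) : (D.conf fun x => Real.exp ((0 : C(M, ℝ)) x)) = D := by
  have h : (fun (i : Fin D.N) (z : ℂ) =>
      Real.sqrt (Real.exp ((0 : C(M, ℝ)) (D.ψ i z))) • D.A i z) = D.A := by
    funext i z
    simp
  unfold Data.conf
  rw [h]

theorem wm_zero (μ : Measure M) : (wm μ fun x => Real.exp ((0 : C(M, ℝ)) x)) = μ := by
  unfold wm
  simp only [ContinuousMap.zero_apply, Real.exp_zero, ENNReal.ofReal_one]
  exact withDensity_one

/-- the form domain of a surface with a basis of eigenfunctions -/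
theorem pack [Nonempty M] (μ : Measure M) (D : Data M) (hD : D.IsSurf μ) {u : ℕ → M → ℝ}
    {lam : ℕ → ℝ} (hu : EigBasis D μ u lam) :
    ∃ (a b : HF D μ →L[ℝ] HF D μ →L[ℝ] ℝ) (e : ℕ → HF D μ), Fm a b ∧ Eg a b e lam ∧
      (∀ (v : HF D μ) (F : M → ℝ), (v.1.fst : M → ℝ) =ᵐ[μ] F → b v v = ∫ x, (F x) ^ 2 ∂μ) ∧
      (∀ (v : HF D μ) (G : M → ℂ), (v.1.snd : M → ℂ) =ᵐ[μ] G → a v v = ∫ x, ‖G x‖ ^ 2 ∂μ) ∧
      0 < μ.real univ ∧
      Tendsto (fun j : ℕ => lam j / (j + 1)) atTop (𝓝 (4 * π / μ.real univ)) := by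
  obtain ⟨hf, -⟩ := tFin M μ D hD
  haveI := hf
  obtain ⟨i, a, hSf, hi, ha⟩ := tPackF M μ D hD inferInstance
  obtain ⟨b, hB, hF, hA, -, -⟩ := tFm M μ (HF D μ) i a hSf
  have hW := tWl M μ D hD inferInstance i a b hSf hi ha hB
  obtain ⟨e, -, he⟩ := tBr M μ D hD i a b hSf hi ha hB hF (0 : C(M, ℝ)) u lam (by
    rw [conf_zero, wm_zero]
    exact hu)
  have h0 : ∫ x, Real.exp ((0 : C(M, ℝ)) x) ∂μ = μ.real univ := by simp
  refine ⟨a, b 0, e, hF 0, he, ?_, ?_, ?_, ?_⟩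
  · intro v F hF'
    rw [hB 0 v v, hi v]
    refine integral_congr_ae ?_
    filter_upwards [hF'] with x hx
    rw [hx, pow_two]
    simp
  · intro v G hG
    rw [ha v v, L2.inner_def]
    refine integral_congr_ae ?_
    filter_upwards [hG] with x hx
    rw [hx, real_inner_self_eq_norm_sq]
  · rw [← h0]
    exact hA 0
  · have h1 := hW 0
    rw [h0] at h1
    refine h1.congr fun j => ?_
    rw [mm _ a (b 0) (hF 0) e lam he j]

/-- the representatives of a combination -/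
theorem fst_sum {D : Data M} {μ : Measure M} {n : ℕ} {F : Fin n → M → ℝ} {w : Fin n → HF D μ}
    (h : ∀ i, ((w i).1.fst : M → ℝ) =ᵐ[μ] F i) (c : Fin n → ℝ) :
    ((∑ k, c k • w k : HF D μ).1.fst : M → ℝ) =ᵐ[μ] fun x => ∑ k, c k * F k x := by
  have e1 : (∑ k, c k • w k : HF D μ).1 = ∑ k, c k • (w k).1 := by
    rw [AddSubmonoidClass.coe_finset_sum]
    rfl
  have h1 : (∑ k, c k • w k : HF D μ).1.fst = ∑ k, c k • (w k).1.fst := by
    rw [e1]
    change (WithLp.fstₗ (𝕜 := ℝ) 2 (Lp ℝ 2 μ) (Lp ℂ 2 μ)) (∑ k, c k • (w k).1) = _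
    rw [map_sum]
    refine Finset.sum_congr rfl fun k _ => ?_
    rw [map_smul]
    rfl
  rw [h1]
  have h2 := coe_sum c (fun k => (w k).1.fst) F h Finset.univ
  refine h2.trans (Eventually.of_forall fun x => ?_)
  simp only [smul_eq_mul]

theorem snd_sum {D : Data M} {μ : Measure M} {n : ℕ} {G : Fin n → M → ℂ} {w : Fin n → HF D μ}
    (h : ∀ i, ((w i).1.snd : M → ℂ) =ᵐ[μ] G i) (c : Fin n → ℝ) :
    ((∑ k, c k • w k : HF D μ).1.snd : M → ℂ) =ᵐ[μ] fun x => ∑ k, c k • G k x := by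
  have e1 : (∑ k, c k • w k : HF D μ).1 = ∑ k, c k • (w k).1 := by
    rw [AddSubmonoidClass.coe_finset_sum]
    rfl
  have h1 : (∑ k, c k • w k : HF D μ).1.snd = ∑ k, c k • (w k).1.snd := by
    rw [e1]
    change (WithLp.sndₗ (𝕜 := ℝ) 2 (Lp ℝ 2 μ) (Lp ℂ 2 μ)) (∑ k, c k • (w k).1) = _
    rw [map_sum]
    refine Finset.sum_congr rfl fun k _ => ?_
    rw [map_smul]
    rfl
  rw [h1]
  exact coe_sum c (fun k => (w k).1.snd) G h Finset.univ

/-- lower bound for the admissible values -/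
theorem le_of_adm [Nonempty M] (μ : Measure M) (D : Data M) (hD : D.IsSurf μ) {u : ℕ → M → ℝ}
    {lam : ℕ → ℝ} (hu : EigBasis D μ u lam) {Λ : ℝ} (hΛ : 0 ≤ Λ) {j : ℕ}
    (h : Adm D μ Λ (j + 1)) : lam j ≤ Λ := by
  obtain ⟨a, b, e, hF, he, hb, ha, -, -⟩ := pack μ D hD hu
  obtain ⟨F, δ, hFC, hδ, hc⟩ := h
  choose v hvm hv1 hv2 using fun k => (tDenF M μ D hD).1 (F k) (hFC k)
  let w : Fin (j + 1) → HF D μ := fun k => ⟨v k, hvm k⟩
  have hfst := fun c : Fin (j + 1) → ℝ => fst_sum (w := w) (F := F) hv1 c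
  have hsnd := fun c : Fin (j + 1) → ℝ => snd_sum (w := w) (G := fun k => D.gr (F k)) hv2 c
  rw [← mm _ a b hF e lam he j]
  refine ev_upper (a := a) (b := b) w hδ hΛ ?_ ?_ le_rfl
  · intro c
    rw [hb _ _ (hfst c)]
    exact (hc c).1
  · intro c
    rw [hb _ _ (hfst c), ha _ _ (hsnd c)]
    exact (hc c).2

/-- small perturbations of quadratic forms in finite dimension -/
theorem quad_le {n : ℕ} (E : Fin n → Fin n → ℝ) {η : ℝ} (hE : ∀ i l, |E i l| ≤ η)
    (c : Fin n → ℝ) : |∑ i, ∑ l, c i * (c l * E i l)| ≤ η * n * ∑ i, (c i) ^ 2 := by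
  have h1 : |∑ i, ∑ l, c i * (c l * E i l)| ≤ ∑ i, ∑ l, |c i| * |c l| * η := by
    refine (Finset.abs_sum_le_sum_abs _ _).trans (Finset.sum_le_sum fun i _ => ?_)
    refine (Finset.abs_sum_le_sum_abs _ _).trans (Finset.sum_le_sum fun l _ => ?_)
    rw [abs_mul, abs_mul, ← mul_assoc]
    exact mul_le_mul_of_nonneg_left (hE i l) (by positivity)
  have h2 : ∑ i, ∑ l, |c i| * |c l| * η = η * (∑ i, |c i|) ^ 2 := by
    rw [sq, Finset.sum_mul_sum, Finset.mul_sum]
    refine Finset.sum_congr rfl fun i _ => ?_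
    rw [Finset.mul_sum]
    refine Finset.sum_congr rfl fun l _ => ?_
    ring
  rcases Nat.eq_zero_or_pos n with h0 | h0
  · subst h0
    simp
  have hη : 0 ≤ η := (abs_nonneg _).trans (hE ⟨0, h0⟩ ⟨0, h0⟩)
  have h3 : (∑ i, |c i|) ^ 2 ≤ n * ∑ i, (c i) ^ 2 := by
    have h4 := Finset.sum_mul_sq_le_sq_mul_sq (Finset.univ : Finset (Fin n)) (fun _ => (1 : ℝ))
      (fun i => |c i|)
    simp only [one_mul, one_pow, sq_abs, Finset.sum_const, Finset.card_univ, Fintype.card_fin,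
      nsmul_eq_mul, mul_one] at h4
    exact h4
  calc |∑ i, ∑ l, c i * (c l * E i l)| ≤ ∑ i, ∑ l, |c i| * |c l| * η := h1
    _ = η * (∑ i, |c i|) ^ 2 := h2
    _ ≤ η * (n * ∑ i, (c i) ^ 2) := mul_le_mul_of_nonneg_left h3 hη
    _ = _ := by ring

theorem form_sum {H : Type} [NormedAddCommGroup H] [InnerProductSpace ℝ H]
    (b : H →L[ℝ] H →L[ℝ] ℝ) {n : ℕ} (c : Fin n → ℝ) (w : Fin n → H) :
    b (∑ i, c i • w i) (∑ i, c i • w i) = ∑ i, ∑ l, c i * (c l * b (w i) (w l)) := by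
  rw [b_sum_left]
  refine Finset.sum_congr rfl fun i _ => ?_
  rw [b_sum_right, Finset.mul_sum]

/-- values above the eigenvalue are admissible -/
theorem adm_of_lt [Nonempty M] (μ : Measure M) (D : Data M) (hD : D.IsSurf μ) {u : ℕ → M → ℝ}
    {lam : ℕ → ℝ} (hu : EigBasis D μ u lam) {j : ℕ} {Λ : ℝ} (hΛ : lam j < Λ) :
    Adm D μ Λ (j + 1) := by
  obtain ⟨a, b, e, hF, he, hb, ha, -, -⟩ := pack μ D hD hu
  have hlam0 : ∀ i, 0 ≤ lam i := by
    intro i
    have h1 := he.eig i (e i)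
    rw [he.orth, if_pos rfl, mul_one] at h1
    rw [← h1]
    exact hF.na _
  have hΛ0 : 0 < Λ := (hlam0 j).trans_lt hΛ
  choose F f hf hlim using fun k : Fin (j + 1) => (tDenF M μ D hD).2 (e k).1 (e k).2
  let w : ℕ → Fin (j + 1) → HF D μ := fun m k => ⟨f k m, (hf k m).2.1⟩
  have hw : ∀ k, Tendsto (fun m => w m k) atTop (𝓝 (e k)) := by
    intro k
    rw [tendsto_subtype_rng]
    exact hlim k
  -- the small parameter
  set η : ℝ := min (1 / 2) ((Λ - lam j) / (2 * (1 + Λ))) / (j + 1) with hη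
  have hη0 : 0 < η := by
    have : 0 < Λ - lam j := by linarith
    positivity
  have hη1 : η * (j + 1) ≤ 1 / 2 := by
    rw [hη, div_mul_cancel₀ _ (by positivity)]
    exact min_le_left _ _
  have hη2 : lam j + η * (j + 1) ≤ Λ * (1 - η * (j + 1)) := by
    have h1 : η * (j + 1) ≤ (Λ - lam j) / (2 * (1 + Λ)) := by
      rw [hη, div_mul_cancel₀ _ (by positivity)]
      exact min_le_right _ _
    rw [le_div_iff₀ (by positivity)] at h1
    nlinarith
  have hev : ∀ g : HF D μ →L[ℝ] HF D μ →L[ℝ] ℝ, ∀ᶠ m in atTop, ∀ i l : Fin (j + 1),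
      |g (w m i) (w m l) - g (e i) (e l)| ≤ η := by
    intro g
    rw [eventually_all]
    intro i
    rw [eventually_all]
    intro l
    have hc : Continuous fun p : HF D μ × HF D μ => g p.1 p.2 := by fun_prop
    have h1 : Tendsto (fun m => g (w m i) (w m l)) atTop (𝓝 (g (e i) (e l))) :=
      (hc.tendsto (e i, e l)).comp ((hw i).prodMk_nhds (hw l))
    have h2 := (Metric.tendsto_nhds.1 h1) η hη0
    filter_upwards [h2] with m hm
    rw [Real.dist_eq] at hm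
    exact hm.le
  obtain ⟨m, hm1, hm2⟩ := ((hev a).and (hev b)).exists
  have hfst := fun c : Fin (j + 1) → ℝ =>
    fst_sum (w := w m) (F := fun k => F k m) (fun k => (hf k m).2.2.1) c
  have hsnd := fun c : Fin (j + 1) → ℝ =>
    snd_sum (w := w m) (G := fun k => D.gr (F k m)) (fun k => (hf k m).2.2.2) c
  have ho := orth_fin b he.orth (j + 1)
  have key : ∀ (g : HF D μ →L[ℝ] HF D μ →L[ℝ] ℝ), (∀ i l : Fin (j + 1),
      |g (w m i) (w m l) - g (e i) (e l)| ≤ η) → ∀ c : Fin (j + 1) → ℝ,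
      |g (∑ i, c i • w m i) (∑ i, c i • w m i) -
        g (∑ i : Fin (j + 1), c i • e i) (∑ i : Fin (j + 1), c i • e i)| ≤
          η * (j + 1) * ∑ i, (c i) ^ 2 := by
    intro g hg c
    rw [form_sum, form_sum g c fun i : Fin (j + 1) => e i, ← Finset.sum_sub_distrib]
    have h1 : ∑ i, (∑ l, c i * (c l * g (w m i) (w m l)) -
        ∑ l : Fin (j + 1), c i * (c l * g (e i) (e l))) =
        ∑ i, ∑ l, c i * (c l * (g (w m i) (w m l) - g (e i) (e l))) := by
      refine Finset.sum_congr rfl fun i _ => ?_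
      rw [← Finset.sum_sub_distrib]
      refine Finset.sum_congr rfl fun l _ => ?_
      ring
    rw [h1]
    have h2 := quad_le (fun i l => g (w m i) (w m l) - g (e i) (e l)) hg c
    push_cast at h2
    exact h2
  have hbe : ∀ c : Fin (j + 1) → ℝ,
      b (∑ i : Fin (j + 1), c i • e i) (∑ i : Fin (j + 1), c i • e i) = ∑ i, (c i) ^ 2 :=
    fun c => b_orth_self b ho c
  have hae : ∀ c : Fin (j + 1) → ℝ,
      a (∑ i : Fin (j + 1), c i • e i) (∑ i : Fin (j + 1), c i • e i) ≤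
        lam j * ∑ i, (c i) ^ 2 := by
    intro c
    rw [b_sum_left, Finset.mul_sum]
    apply Finset.sum_le_sum
    intro i _
    rw [he.eig, b_orth_coef b ho]
    have h1 : lam i ≤ lam j := he.mono (Nat.lt_succ_iff.mp i.2)
    have h2 := mul_le_mul_of_nonneg_right h1 (sq_nonneg (c i))
    linarith
  refine ⟨fun k => F k m, 1 / 2, fun k => (hf k m).1, by norm_num, fun c => ?_⟩
  have k1 := abs_le.1 (key b hm2 c)
  have k2 := abs_le.1 (key a hm1 c)
  have hS : 0 ≤ ∑ i, (c i) ^ 2 := Finset.sum_nonneg fun i _ => sq_nonneg _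
  rw [hbe c] at k1
  have k3 := hae c
  rw [← hb _ _ (hfst c), ← ha _ _ (hsnd c)]
  constructor
  · nlinarith
  · have h5 : a (∑ i, c i • w m i) (∑ i, c i • w m i) ≤
        (lam j + η * (j + 1)) * ∑ i, (c i) ^ 2 := by linarith
    have h6 : (1 - η * (j + 1)) * ∑ i, (c i) ^ 2 ≤
        b (∑ i, c i • w m i) (∑ i, c i • w m i) := by linarith
    calc a (∑ i, c i • w m i) (∑ i, c i • w m i) ≤
        (lam j + η * (j + 1)) * ∑ i, (c i) ^ 2 := h5
      _ ≤ Λ * (1 - η * (j + 1)) * ∑ i, (c i) ^ 2 := mul_le_mul_of_nonneg_right hη2 hS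
      _ = Λ * ((1 - η * (j + 1)) * ∑ i, (c i) ^ 2) := by ring
      _ ≤ _ := mul_le_mul_of_nonneg_left h6 hΛ0.le

end

end Pool.Agent.K7.H40.GM
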