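import Pool.Agent.Y708.QE.Gr
import Pool.Agent.Y219.QR.Cov
import Pool.Agent.Y274.QE.Fin

/-!
# Comparison of two Riemannian metrics: gradients, area
-/

set_option autoImplicit false

open Set Filter Topology MeasureTheory
open scoped Real ContDiff

noncomputable section

namespace Pool.Agent.K7.H40.GM

open Pool.Agent.Y262.QE Pool.Agent.Y708.QE

/-- comparison of the gradients -/
theorem grd_le {A A' : ℂ →L[ℝ] ℂ} (hA : A.det ≠ 0) (hA' : A'.det ≠ 0) {k : ℝ}
    (h : ∀ v, ‖A v‖ ≤ k * ‖A' v‖) (P : ℂ →L[ℝ] ℝ) : ‖grd A' P‖ ≤ k * ‖grd A P‖ := by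
  set w := grd A' P with hw
  set v := A'.inverse w with hv
  have e1 : ‖w‖ ^ 2 = P v := by
    rw [← real_inner_self_eq_norm_sq, hv, ← inner_grd A' P w, ← hw]
  have e2 : P v = inner ℝ (grd A P) (A v) := by
    rw [inner_grd, inv_apply' hA]
  have e3 : A' v = w := inv_apply hA' w
  have e4 : ‖w‖ ^ 2 ≤ ‖grd A P‖ * (k * ‖w‖) := by
    rw [e1, e2]
    refine (real_inner_le_norm _ _).trans ?_
    refine mul_le_mul_of_nonneg_left ?_ (norm_nonneg _)
    have := h v
    rwa [e3] at this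
  rcases (norm_nonneg w).eq_or_lt with h0 | h0
  · rw [← h0]
    have hk : 0 ≤ k := by
      by_contra hk
      push Not at hk
      -- `k < 0` is impossible
      have h1 := h (A'.inverse 1)
      rw [inv_apply hA'] at h1
      have h2 : ‖(1 : ℂ)‖ = 1 := norm_one
      rw [h2, mul_one] at h1
      have := norm_nonneg (A (A'.inverse 1))
      linarith
    positivity
  · have : ‖w‖ * ‖w‖ ≤ (k * ‖grd A P‖) * ‖w‖ := by nlinarith
    exact le_of_mul_le_mul_right this h0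

theorem grd_sum (A : ℂ →L[ℝ] ℂ) {n : ℕ} (c : Fin n → ℝ) (P : Fin n → ℂ →L[ℝ] ℝ) :
    ∑ i, c i • grd A (P i) = grd A (∑ i, c i • P i) := by
  apply Complex.ext
  · simp [grd]
  · simp [grd]

/-- comparison of the area densities -/
theorem det_le {A A' : ℂ →L[ℝ] ℂ} (hA : A.det ≠ 0) {k : ℝ} (hk : 0 ≤ k)
    (h : ∀ v, ‖A' v‖ ≤ k * ‖A v‖) : |A'.det| ≤ k ^ 2 * |A.det| := by
  set L : ℂ →L[ℝ] ℂ := A'.comp A.inverse with hL
  have hdet : L.det = A'.det * A.inverse.det := by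
    rw [hL]
    show LinearMap.det ((A' : ℂ →ₗ[ℝ] ℂ).comp (A.inverse : ℂ →ₗ[ℝ] ℂ)) = _
    rw [LinearMap.det_comp]
  have hLn : ∀ v, ‖L v‖ ≤ k * ‖v‖ := by
    intro v
    have := h (A.inverse v)
    rwa [inv_apply hA] at this
  have hsub : L '' Metric.closedBall 0 1 ⊆ Metric.closedBall 0 (k * 1) := by
    rintro _ ⟨v, hv, rfl⟩
    rw [mem_closedBall_zero_iff] at hv ⊢
    exact (hLn v).trans (mul_le_mul_of_nonneg_left hv hk)
  have h1 := measure_mono (μ := (volume : Measure ℂ)) hsub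
  rw [Measure.addHaar_image_continuousLinearMap, Measure.addHaar_closedBall_mul _ _ hk one_pos.le,
    Complex.finrank_real_complex] at h1
  have hpos : (volume : Measure ℂ) (Metric.closedBall 0 1) ≠ 0 :=
    (Metric.measure_closedBall_pos volume 0 one_pos).ne'
  have hfin : (volume : Measure ℂ) (Metric.closedBall 0 1) ≠ ⊤ := measure_closedBall_lt_top.ne
  have h2 : ENNReal.ofReal |L.det| ≤ ENNReal.ofReal (k ^ 2) :=
    (ENNReal.mul_le_mul_iff_left hpos hfin).1 h1
  have h3 : |L.det| ≤ k ^ 2 := (ENNReal.ofReal_le_ofReal_iff (by positivity)).1 h2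
  have h4 := Pool.Agent.Y219.QR.det_inv hA
  have h5 : |A'.det| = |L.det| * |A.det| := by
    rw [hdet, abs_mul]
    calc |A'.det| = |A'.det| * (|A.det| * |A.inverse.det|) := by rw [h4, mul_one]
      _ = _ := by ring
  rw [h5]
  exact mul_le_mul_of_nonneg_right h3 (abs_nonneg _)

section

variable {M : Type} [MetricSpace M] [CompactSpace M] [MeasurableSpace M] [BorelSpace M]

/-- two data with the same charts; `k` compares the metrics: `g' ≤ k² g` -/
structure Cmp {N : ℕ} (U : Fin N → Set M) (φ : Fin N → M → ℂ) (A A' : Fin N → ℂ → ℂ →L[ℝ] ℂ)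
    (k : ℝ) : Prop where
  le : ∀ i, ∀ z ∈ φ i '' U i, ∀ v, ‖A' i z v‖ ≤ k * ‖A i z v‖

/-- comparison of the areas -/
theorem area_le {N : ℕ} {U : Fin N → Set M} {φ : Fin N → M → ℂ} {ψ : Fin N → ℂ → M}
    {A A' : Fin N → ℂ → ℂ →L[ℝ] ℂ} {μ μ' : Measure M}
    (hD : (⟨N, U, φ, ψ, A⟩ : Data M).IsSurf μ) (hD' : (⟨N, U, φ, ψ, A'⟩ : Data M).IsSurf μ')
    {k : ℝ} (hk : 0 ≤ k) (h : Cmp U φ A A' k) : μ' ≤ ENNReal.ofReal (k ^ 2) • μ := by
  set D : Data M := ⟨N, U, φ, ψ, A⟩ with hDdef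
  rw [Measure.le_iff]
  intro B hB
  have hpart : ∀ ν : Measure M, ν B = ∑ i : Fin N, ν (B ∩ D.pc i) := by
    intro ν
    have h1 : B = ⋃ i : Fin N, B ∩ D.pc i := by
      ext x
      constructor
      · intro hx
        obtain ⟨i, hi⟩ := pc_ex hD x
        exact mem_iUnion.2 ⟨i, hx, hi⟩
      · intro hx
        obtain ⟨i, hi⟩ := mem_iUnion.1 hx
        exact hi.1
    conv_lhs => rw [h1]
    rw [measure_iUnion, tsum_fintype]
    · intro i j hij
      rw [Function.onFun, Set.disjoint_left]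
      intro x hx hx'
      exact hij (pc_disj hx.2 hx'.2)
    · intro i
      exact hB.inter (pc_meas hD i)
  rw [Measure.smul_apply, hpart μ, hpart μ', smul_eq_mul, Finset.mul_sum]
  refine Finset.sum_le_sum fun i _ => ?_
  have hBi : MeasurableSet (B ∩ D.pc i) := hB.inter (pc_meas hD i)
  have hsub : B ∩ D.pc i ⊆ U i := fun x hx => hx.2.1
  have e1 := hD.area i (B ∩ D.pc i) hsub hBi
  have e2 := hD'.area i (B ∩ D.pc i) hsub hBi
  rw [e1, e2, ← lintegral_const_mul' _ _ ENNReal.ofReal_ne_top]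
  refine lintegral_mono_ae ?_
  have hT : MeasurableSet (φ i '' U i) := (hD.openT i).measurableSet
  have h1 : ∀ᵐ z ∂(volume.restrict (φ i '' U i) : Measure ℂ), z ∈ φ i '' U i :=
    ae_restrict_mem hT
  have h2 : ∀ᵐ z ∂(volume.restrict (φ i '' (B ∩ D.pc i)) : Measure ℂ), z ∈ φ i '' U i :=
    ae_mono (Measure.restrict_mono (image_mono hsub) le_rfl) h1
  filter_upwards [h2] with z hz
  rw [← ENNReal.ofReal_mul (by positivity)]
  exact ENNReal.ofReal_le_ofReal (det_le (hD.det i z hz) hk (h.le i z hz))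

end

end Pool.Agent.K7.H40.GM
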