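import Pool.Agent.K7.H40.GM.Alg

/-!
# Comparison of two Riemannian metrics: the quadratic forms
-/

set_option autoImplicit false

open Set Filter Topology MeasureTheory
open scoped Real ContDiff

noncomputable section

namespace Pool.Agent.K7.H40.GM

open Pool.Agent.Y262.QE Pool.Agent.Y708.QE

/-- there are `n` linearly independent `C¹` functions on whose span `∫ |∇F|² ≤ Λ ∫ F²` -/
def Adm {M : Type} [MeasurableSpace M] (D : Data M) (μ : Measure M) (Λ : ℝ) (n : ℕ) : Prop :=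
  ∃ (F : Fin n → M → ℝ) (δ : ℝ), (∀ i, D.C1 (F i)) ∧ 0 < δ ∧ ∀ c : Fin n → ℝ,
    δ * ∑ i, (c i) ^ 2 ≤ ∫ x, (∑ i, c i * F i x) ^ 2 ∂μ ∧
    ∫ x, ‖∑ i, c i • D.gr (F i) x‖ ^ 2 ∂μ ≤ Λ * ∫ x, (∑ i, c i * F i x) ^ 2 ∂μ

section

variable {M : Type} [MetricSpace M] [CompactSpace M] [MeasurableSpace M] [BorelSpace M]

theorem gr_le {N : ℕ} {U : Fin N → Set M} {φ : Fin N → M → ℂ} {ψ : Fin N → ℂ → M}
    {A A' : Fin N → ℂ → ℂ →L[ℝ] ℂ} {μ μ' : Measure M}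
    (hD : (⟨N, U, φ, ψ, A⟩ : Data M).IsSurf μ) (hD' : (⟨N, U, φ, ψ, A'⟩ : Data M).IsSurf μ')
    {k : ℝ} (h : Cmp U φ A A' k) {n : ℕ} (c : Fin n → ℝ) (F : Fin n → M → ℝ) (x : M) :
    ‖∑ i, c i • (⟨N, U, φ, ψ, A⟩ : Data M).gr (F i) x‖ * 1 ≤
      k * ‖∑ i, c i • (⟨N, U, φ, ψ, A'⟩ : Data M).gr (F i) x‖ := by
  obtain ⟨j, hj⟩ := pc_ex hD x
  have hj' : x ∈ (⟨N, U, φ, ψ, A'⟩ : Data M).pc j := hj
  have e1 : ∑ i, c i • (⟨N, U, φ, ψ, A⟩ : Data M).gr (F i) x =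
      grd (A j (φ j x)) (∑ i, c i • (⟨N, U, φ, ψ, A⟩ : Data M).dc j (F i) x) := by
    rw [← grd_sum]
    exact Finset.sum_congr rfl fun i _ => by rw [gr_eq hj]; rfl
  have e2 : ∑ i, c i • (⟨N, U, φ, ψ, A'⟩ : Data M).gr (F i) x =
      grd (A' j (φ j x)) (∑ i, c i • (⟨N, U, φ, ψ, A⟩ : Data M).dc j (F i) x) := by
    rw [← grd_sum]
    exact Finset.sum_congr rfl fun i _ => by rw [gr_eq hj']; rfl
  rw [e1, e2, mul_one]
  have hz : φ j x ∈ φ j '' U j := ⟨x, hj.1, rfl⟩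
  exact grd_le (hD'.det j _ hz) (hD.det j _ hz) (h.le j _ hz) _

theorem int_le {μ μ' : Measure M} [IsFiniteMeasure μ] {k : ℝ} (hk : 0 ≤ k)
    (h : μ' ≤ ENNReal.ofReal k • μ) {f : M → ℝ} (hf : Measurable f) (h0 : ∀ x, 0 ≤ f x)
    {C : ℝ} (hC : ∀ x, f x ≤ C) : ∫ x, f x ∂μ' ≤ k * ∫ x, f x ∂μ := by
  have h1 : ∫ x, f x ∂(ENNReal.ofReal k • μ) = k * ∫ x, f x ∂μ := by
    rw [integral_smul_measure, ENNReal.toReal_ofReal hk, smul_eq_mul]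
  rw [← h1]
  haveI : IsFiniteMeasure (ENNReal.ofReal k • μ) := by
    refine ⟨?_⟩
    rw [Measure.smul_apply, smul_eq_mul]
    exact ENNReal.mul_lt_top ENNReal.ofReal_lt_top (measure_lt_top μ _)
  refine integral_mono_measure h (Eventually.of_forall h0) ?_
  refine Integrable.of_bound hf.aestronglyMeasurable C (Eventually.of_forall fun x => ?_)
  rw [Real.norm_eq_abs, abs_of_nonneg (h0 x)]
  exact hC x

/-- comparison of the minimax values -/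
theorem adm_le {N : ℕ} {U : Fin N → Set M} {φ : Fin N → M → ℂ} {ψ : Fin N → ℂ → M}
    {A A' : Fin N → ℂ → ℂ →L[ℝ] ℂ} {μ μ' : Measure M}
    (hD : (⟨N, U, φ, ψ, A⟩ : Data M).IsSurf μ) (hD' : (⟨N, U, φ, ψ, A'⟩ : Data M).IsSurf μ')
    {k : ℝ} (hk : 1 ≤ k) (h : Cmp U φ A A' k) (h' : Cmp U φ A' A k) {Λ : ℝ} (hΛ : 0 ≤ Λ) {n : ℕ}
    (ha : Adm (⟨N, U, φ, ψ, A⟩ : Data M) μ Λ n) :
    Adm (⟨N, U, φ, ψ, A'⟩ : Data M) μ' (k ^ 6 * Λ) n := by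
  have hk0 : 0 ≤ k := by linarith
  have hkp : 0 < k := by linarith
  haveI : IsFiniteMeasure μ := (Pool.Agent.Y274.QE.Fin.fin M μ _ hD).1
  haveI : IsFiniteMeasure μ' := (Pool.Agent.Y274.QE.Fin.fin M μ' _ hD').1
  obtain ⟨F, δ, hF, hδ, hc⟩ := ha
  have hμ := area_le hD hD' hk0 h
  have hμ' := area_le hD' hD hk0 h'
  have hk2 : 0 ≤ k ^ 2 := by positivity
  have hFc : ∀ i, Continuous (F i) := fun i => C1_cont hD (hF i)
  refine ⟨F, δ / k ^ 2, fun i => hF i, by positivity, fun c => ?_⟩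
  obtain ⟨h1, h2⟩ := hc c
  -- the squares
  have hq : Continuous fun x => (∑ i, c i * F i x) ^ 2 := by fun_prop
  obtain ⟨C, hC⟩ : ∃ C, ∀ x, (∑ i, c i * F i x) ^ 2 ≤ C := by
    obtain ⟨C, hC⟩ := (isCompact_range hq).bddAbove
    exact ⟨C, fun x => hC (mem_range_self x)⟩
  have h3 : ∫ x, (∑ i, c i * F i x) ^ 2 ∂μ ≤ k ^ 2 * ∫ x, (∑ i, c i * F i x) ^ 2 ∂μ' :=
    int_le hk2 hμ' hq.measurable (fun x => sq_nonneg _) hC
  -- the gradients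
  set G : M → ℂ := fun x => ∑ i, c i • (⟨N, U, φ, ψ, A⟩ : Data M).gr (F i) x with hG
  set G' : M → ℂ := fun x => ∑ i, c i • (⟨N, U, φ, ψ, A'⟩ : Data M).gr (F i) x with hG'
  have hGm : Measurable G := Finset.measurable_sum _ fun i _ => (gr_meas hD (hF i)).const_smul (c i)
  have hGm' : Measurable G' :=
    Finset.measurable_sum _ fun i _ => (gr_meas hD' (hF i)).const_smul (c i)
  obtain ⟨CG, hCG⟩ : ∃ C, ∀ x, ‖G x‖ ^ 2 ≤ C := by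
    choose C hC using fun i => gr_bdd hD (hF i)
    refine ⟨(∑ i, |c i| * C i) ^ 2, fun x => ?_⟩
    refine pow_le_pow_left₀ (norm_nonneg _) ?_ 2
    refine (norm_sum_le _ _).trans (Finset.sum_le_sum fun i _ => ?_)
    rw [norm_smul, Real.norm_eq_abs]
    exact mul_le_mul_of_nonneg_left (hC i x) (abs_nonneg _)
  have hpt : ∀ x, ‖G' x‖ ^ 2 ≤ k ^ 2 * ‖G x‖ ^ 2 := by
    intro x
    have := gr_le hD' hD h' c F x
    rw [mul_one] at this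
    have h4 := pow_le_pow_left₀ (norm_nonneg _) this 2
    rwa [mul_pow] at h4
  have h4 : ∫ x, ‖G' x‖ ^ 2 ∂μ' ≤ k ^ 2 * ∫ x, ‖G x‖ ^ 2 ∂μ' := by
    rw [← integral_const_mul]
    refine integral_mono_of_nonneg (Eventually.of_forall fun x => by positivity) ?_
      (Eventually.of_forall hpt)
    refine Integrable.const_mul ?_ _
    refine Integrable.of_bound (hGm.norm.pow_const 2).aestronglyMeasurable CG
      (Eventually.of_forall fun x => ?_)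
    rw [Real.norm_eq_abs, abs_of_nonneg (by positivity)]
    exact hCG x
  have h5 : ∫ x, ‖G x‖ ^ 2 ∂μ' ≤ k ^ 2 * ∫ x, ‖G x‖ ^ 2 ∂μ :=
    int_le hk2 hμ (hGm.norm.pow_const 2) (fun x => by positivity) hCG
  constructor
  · rw [div_mul_eq_mul_div, div_le_iff₀ (by positivity)]
    calc δ * ∑ i, (c i) ^ 2 ≤ ∫ x, (∑ i, c i * F i x) ^ 2 ∂μ := h1
      _ ≤ k ^ 2 * ∫ x, (∑ i, c i * F i x) ^ 2 ∂μ' := h3
      _ = _ := by ring
  · calc ∫ x, ‖G' x‖ ^ 2 ∂μ' ≤ k ^ 2 * ∫ x, ‖G x‖ ^ 2 ∂μ' := h4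
      _ ≤ k ^ 2 * (k ^ 2 * ∫ x, ‖G x‖ ^ 2 ∂μ) := mul_le_mul_of_nonneg_left h5 hk2
      _ ≤ k ^ 2 * (k ^ 2 * (Λ * ∫ x, (∑ i, c i * F i x) ^ 2 ∂μ)) := by
          refine mul_le_mul_of_nonneg_left (mul_le_mul_of_nonneg_left h2 hk2) hk2
      _ ≤ k ^ 2 * (k ^ 2 * (Λ * (k ^ 2 * ∫ x, (∑ i, c i * F i x) ^ 2 ∂μ'))) := by
          refine mul_le_mul_of_nonneg_left (mul_le_mul_of_nonneg_left
            (mul_le_mul_of_nonneg_left h3 hΛ) hk2) hk2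
      _ = _ := by ring

end

end Pool.Agent.K7.H40.GM
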