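import Pool.Agent.K7.H40.GM.Ad
import Pool.Agent.Q205.Baire.Joint
import Pool.Agent.Q205.Lim.Surf

/-!
# Continuous families of metrics: the unfolded spectra
-/

set_option autoImplicit false

open Set Filter Topology MeasureTheory
open scoped Real ContDiff

noncomputable section

namespace Pool.Agent.K7.H40.GM

open Pool.Agent.Y262.QE Pool.Agent.Y264.QR

section

variable {M : Type} [MetricSpace M] [CompactSpace M] [MeasurableSpace M] [BorelSpace M]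

/-- comparison of the eigenvalues -/
theorem lam_le [Nonempty M] {N : ℕ} {U : Fin N → Set M} {φ : Fin N → M → ℂ}
    {ψ : Fin N → ℂ → M} {A A' : Fin N → ℂ → ℂ →L[ℝ] ℂ} {μ μ' : Measure M}
    (hD : (⟨N, U, φ, ψ, A⟩ : Data M).IsSurf μ) (hD' : (⟨N, U, φ, ψ, A'⟩ : Data M).IsSurf μ')
    {u u' : ℕ → M → ℝ} {lam lam' : ℕ → ℝ}
    (hu : EigBasis (⟨N, U, φ, ψ, A⟩ : Data M) μ u lam)
    (hu' : EigBasis (⟨N, U, φ, ψ, A'⟩ : Data M) μ' u' lam')
    {k : ℝ} (hk : 1 ≤ k) (h : Cmp U φ A A' k) (h' : Cmp U φ A' A k) (j : ℕ) :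
    lam' j ≤ k ^ 6 * lam j := by
  have h0 : 0 ≤ lam j := by
    obtain ⟨a, b, e, hF, he, -⟩ := pack μ _ hD hu
    have h1 := he.eig j (e j)
    rw [he.orth, if_pos rfl, mul_one] at h1
    rw [← h1]
    exact hF.na _
  have hk6 : 0 < k ^ 6 := by positivity
  have key : ∀ Λ, lam j < Λ → lam' j ≤ k ^ 6 * Λ := by
    intro Λ hΛ
    have h1 := adm_of_lt μ _ hD hu hΛ
    have h2 := adm_le hD hD' hk h h' (h0.trans hΛ.le) h1
    exact le_of_adm μ' _ hD' hu' (mul_nonneg hk6.le (h0.trans hΛ.le)) h2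
  have h1 : lam' j / k ^ 6 ≤ lam j := by
    refine le_of_forall_gt_imp_ge_of_dense fun Λ hΛ => ?_
    rw [div_le_iff₀ hk6]
    have := key Λ hΛ
    linarith
  rw [div_le_iff₀ hk6] at h1
  linarith

/-- comparison of the unfolded levels -/
theorem unf_le [Nonempty M] {N : ℕ} {U : Fin N → Set M} {φ : Fin N → M → ℂ}
    {ψ : Fin N → ℂ → M} {A A' : Fin N → ℂ → ℂ →L[ℝ] ℂ} {μ μ' : Measure M}
    (hD : (⟨N, U, φ, ψ, A⟩ : Data M).IsSurf μ) (hD' : (⟨N, U, φ, ψ, A'⟩ : Data M).IsSurf μ')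
    {u u' : ℕ → M → ℝ} {lam lam' : ℕ → ℝ}
    (hu : EigBasis (⟨N, U, φ, ψ, A⟩ : Data M) μ u lam)
    (hu' : EigBasis (⟨N, U, φ, ψ, A'⟩ : Data M) μ' u' lam')
    {k : ℝ} (hk : 1 ≤ k) (h : Cmp U φ A A' k) (h' : Cmp U φ A' A k) (j : ℕ) :
    μ'.real univ / (4 * π) * lam' j ≤ k ^ 8 * (μ.real univ / (4 * π) * lam j) := by
  haveI : IsFiniteMeasure μ := (Pool.Agent.Y274.QE.Fin.fin M μ _ hD).1
  haveI : IsFiniteMeasure μ' := (Pool.Agent.Y274.QE.Fin.fin M μ' _ hD').1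
  have hk0 : 0 ≤ k := by linarith
  have h0 : 0 ≤ lam j := by
    obtain ⟨a, b, e, hF, he, -⟩ := pack μ _ hD hu
    have h1 := he.eig j (e j)
    rw [he.orth, if_pos rfl, mul_one] at h1
    rw [← h1]
    exact hF.na _
  have h1 := lam_le hD hD' hu hu' hk h h' j
  have h2 : μ'.real univ ≤ k ^ 2 * μ.real univ := by
    have h3 := area_le hD hD' hk0 h univ
    rw [Measure.smul_apply, smul_eq_mul] at h3
    have h4 := ENNReal.toReal_mono
      (ENNReal.mul_ne_top ENNReal.ofReal_ne_top (measure_ne_top μ univ)) h3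
    rw [ENNReal.toReal_mul, ENNReal.toReal_ofReal (by positivity)] at h4
    exact h4
  have hμ : 0 ≤ μ.real univ := measureReal_nonneg
  have hμ' : 0 ≤ μ'.real univ := measureReal_nonneg
  calc μ'.real univ / (4 * π) * lam' j ≤ μ'.real univ / (4 * π) * (k ^ 6 * lam j) :=
        mul_le_mul_of_nonneg_left h1 (by positivity)
    _ ≤ (k ^ 2 * μ.real univ) / (4 * π) * (k ^ 6 * lam j) := by
        refine mul_le_mul_of_nonneg_right ?_ (by positivity)
        exact div_le_div_of_nonneg_right h2 (by positivity)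
    _ = _ := by ring

/-- a continuous family of metrics -/
structure Family {N : ℕ} (U : Fin N → Set M) (φ : Fin N → M → ℂ) {F : Type} [TopologicalSpace F]
    (A : F → Fin N → ℂ → ℂ →L[ℝ] ℂ) : Prop where
  le : ∀ f₀ : F, ∀ ε : ℝ, 0 < ε → ∀ᶠ f in 𝓝 f₀, ∀ i, ∀ z ∈ φ i '' U i, ∀ v,
    ‖A f i z v‖ ≤ (1 + ε) * ‖A f₀ i z v‖ ∧ ‖A f₀ i z v‖ ≤ (1 + ε) * ‖A f i z v‖

theorem cont_of_ratio {F : Type} [TopologicalSpace F] (y : F → ℝ) (h0 : ∀ f, 0 ≤ y f)
    (h : ∀ f₀ : F, ∀ ε : ℝ, 0 < ε → ∀ᶠ f in 𝓝 f₀,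
      y f ≤ (1 + ε) ^ 8 * y f₀ ∧ y f₀ ≤ (1 + ε) ^ 8 * y f) : Continuous y := by
  rw [continuous_iff_continuousAt]
  intro f₀
  rw [ContinuousAt, tendsto_order]
  constructor
  · intro a ha
    have h1 : Tendsto (fun ε : ℝ => (1 + ε) ^ 8 * a) (𝓝[>] 0) (𝓝 ((1 + 0) ^ 8 * a)) := by
      have : Continuous fun ε : ℝ => (1 + ε) ^ 8 * a := by fun_prop
      exact (this.tendsto 0).mono_left nhdsWithin_le_nhds
    have h2 : (1 + 0) ^ 8 * a < y f₀ := by simpa using ha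
    obtain ⟨ε, hε1, hε2⟩ := ((h1.eventually (gt_mem_nhds h2)).and self_mem_nhdsWithin).exists
    have hε : (0 : ℝ) < ε := hε2
    filter_upwards [h f₀ ε hε] with f hf
    have h3 : (1 + ε) ^ 8 * a < (1 + ε) ^ 8 * y f := hε1.trans_le hf.2
    exact lt_of_mul_lt_mul_left h3 (by positivity)
  · intro a ha
    have h1 : Tendsto (fun ε : ℝ => (1 + ε) ^ 8 * y f₀) (𝓝[>] 0) (𝓝 ((1 + 0) ^ 8 * y f₀)) := by
      have : Continuous fun ε : ℝ => (1 + ε) ^ 8 * y f₀ := by fun_prop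
      exact (this.tendsto 0).mono_left nhdsWithin_le_nhds
    have h2 : (1 + 0) ^ 8 * y f₀ < a := by simpa using ha
    obtain ⟨ε, hε1, hε2⟩ := ((h1.eventually (gt_mem_nhds h2)).and self_mem_nhdsWithin).exists
    have hε : (0 : ℝ) < ε := hε2
    filter_upwards [h f₀ ε hε] with f hf
    exact hf.1.trans_lt hε1

/-- `x` is the sequence of the unfolded levels of the surface `D` with the area `μ` -/
def Unf (D : Data M) (μ : Measure M) (x : ℕ → ℝ) : Prop :=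
  ∃ (u : ℕ → M → ℝ) (lam : ℕ → ℝ), EigBasis D μ u lam ∧
    ∀ k, x k = μ.real univ / (4 * π) * lam k

theorem unf_ex [Nonempty M] (μ : Measure M) (D : Data M) (hD : D.IsSurf μ) :
    ∃ x, Unf D μ x := by
  obtain ⟨u, lam, h⟩ := tEx M μ D hD inferInstance (0 : C(M, ℝ))
  rw [conf_zero, wm_zero] at h
  exact ⟨fun k => μ.real univ / (4 * π) * lam k, u, lam, h, fun k => rfl⟩

theorem unf_div [Nonempty M] {μ : Measure M} {D : Data M} (hD : D.IsSurf μ) {x : ℕ → ℝ}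
    (hx : Unf D μ x) : Tendsto (fun k : ℕ => x k / (k + 1)) atTop (𝓝 1) := by
  obtain ⟨u, lam, hu, hxk⟩ := hx
  obtain ⟨a, b, e, hF, he, -, -, hpos, hW⟩ := pack μ D hD hu
  have h1 := hW.const_mul (μ.real univ / (4 * π))
  have h2 : μ.real univ / (4 * π) * (4 * π / μ.real univ) = 1 := by
    have := hpos.ne'
    have := Real.pi_ne_zero
    field_simp
  rw [h2] at h1
  refine h1.congr fun k => ?_
  rw [hxk]
  ring

theorem unf_nonneg [Nonempty M] {μ : Measure M} {D : Data M} (hD : D.IsSurf μ) {x : ℕ → ℝ}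
    (hx : Unf D μ x) (k : ℕ) : 0 ≤ x k := by
  obtain ⟨u, lam, hu, hxk⟩ := hx
  obtain ⟨a, b, e, hF, he, -, -, hpos, -⟩ := pack μ D hD hu
  have h1 := he.eig k (e k)
  rw [he.orth, if_pos rfl, mul_one] at h1
  have h2 : 0 ≤ lam k := by
    rw [← h1]
    exact hF.na _
  rw [hxk]
  positivity

theorem unf_mono {μ : Measure M} {D : Data M} {x : ℕ → ℝ} (hx : Unf D μ x) : Monotone x := by
  obtain ⟨u, lam, hu, hxk⟩ := hx
  intro i j hij
  rw [hxk, hxk]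
  exact mul_le_mul_of_nonneg_left (hu.mono hij) (div_nonneg measureReal_nonneg (by positivity))

/-- the unfolded levels depend continuously on the metric -/
theorem unf_cont [Nonempty M] {N : ℕ} {U : Fin N → Set M} {φ : Fin N → M → ℂ}
    {ψ : Fin N → ℂ → M} {F : Type} [TopologicalSpace F] {A : F → Fin N → ℂ → ℂ →L[ℝ] ℂ}
    {μ : F → Measure M} (hD : ∀ f, (⟨N, U, φ, ψ, A f⟩ : Data M).IsSurf (μ f))
    (hA : Family U φ A) {x : F → ℕ → ℝ} (hx : ∀ f, Unf ⟨N, U, φ, ψ, A f⟩ (μ f) (x f)) (k : ℕ) :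
    Continuous fun f => x f k := by
  refine cont_of_ratio _ (fun f => unf_nonneg (hD f) (hx f) k) fun f₀ ε hε => ?_
  filter_upwards [hA.le f₀ ε hε] with f hf
  obtain ⟨u, lam, hu, hxk⟩ := hx f
  obtain ⟨u₀, lam₀, hu₀, hxk₀⟩ := hx f₀
  have h1 : Cmp U φ (A f₀) (A f) (1 + ε) := ⟨fun i z hz v => (hf i z hz v).1⟩
  have h2 : Cmp U φ (A f) (A f₀) (1 + ε) := ⟨fun i z hz v => (hf i z hz v).2⟩
  rw [hxk, hxk₀]
  exact ⟨unf_le (hD f₀) (hD f) hu₀ hu (by linarith) h1 h2 k,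
    unf_le (hD f) (hD f₀) hu hu₀ (by linarith) h2 h1 k⟩

/-- the continuous family of spectra -/
def spec [Nonempty M] {N : ℕ} {U : Fin N → Set M} {φ : Fin N → M → ℂ}
    {ψ : Fin N → ℂ → M} {F : Type} [TopologicalSpace F] {A : F → Fin N → ℂ → ℂ →L[ℝ] ℂ}
    {μ : F → Measure M} (hD : ∀ f, (⟨N, U, φ, ψ, A f⟩ : Data M).IsSurf (μ f))
    (hA : Family U φ A) (x : F → ℕ → ℝ) (hx : ∀ f, Unf ⟨N, U, φ, ψ, A f⟩ (μ f) (x f)) :
    Pool.Agent.Q205.Baire.Spectra F where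
  x k f := x f k
  cont k := unf_cont hD hA hx k
  mono f := unf_mono (hx f)
  unb f := by
    have h1 := unf_div (hD f) (hx f)
    have h2 : Tendsto (fun k : ℕ => (k : ℝ) + 1) atTop atTop :=
      tendsto_natCast_atTop_atTop.atTop_add tendsto_const_nhds
    have h3 := h1.pos_mul_atTop one_pos h2
    refine h3.congr fun k => ?_
    have : ((k : ℝ) + 1) ≠ 0 := by positivity
    field_simp

end

end Pool.Agent.K7.H40.GM
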