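import Pool.Agent.K7.H40.GM.Osc

/-!
# Convergence at a generic parameter is joint convergence in the height and the parameter
-/

set_option autoImplicit false

open Set Filter Topology MeasureTheory

namespace Pool.Agent.K7.H40.GM

open Pool.Agent.Q205.Baire

section one

variable {X : Type*} [TopologicalSpace X]

theorem joint_of_Fc {B : ℝ → X → ℝ} (hB : Nice B) {g : X}
    (h : ∀ m : ℕ, ∃ n : ℕ, g ∈ interior (Fc B (1 / ((m : ℝ) + 1)) ((n : ℝ) + 1))) :
    ∃ c, Tendsto (fun p : ℝ × X => B p.1 p.2) (atTop ×ˢ 𝓝 g) (𝓝 c) := by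
  have hC : CauchySeq fun T => B T g := by
    rw [Metric.cauchySeq_iff]
    intro ε hε
    obtain ⟨m, hm⟩ := exists_nat_one_div_lt hε
    obtain ⟨n, hn⟩ := h m
    refine ⟨(n : ℝ) + 1, fun T hT T' hT' => ?_⟩
    rw [Real.dist_eq]
    exact (interior_subset hn T hT T' hT').trans_lt hm
  obtain ⟨c, hc⟩ := cauchySeq_tendsto_of_complete hC
  refine ⟨c, Metric.tendsto_nhds.2 fun ε hε => ?_⟩
  obtain ⟨m, hm⟩ := exists_nat_one_div_lt (show (0 : ℝ) < ε / 4 by positivity)
  obtain ⟨n, hn⟩ := h m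
  obtain ⟨S, hS, -, hcont⟩ := near_time hB (g := g) (T := (n : ℝ) + 1) (by positivity)
    (p := fun _ => True) (Eventually.of_forall fun _ => trivial)
  have h1 := (Metric.tendsto_nhds.1 hcont) (ε / 4) (by positivity)
  have h2 : ∀ᶠ g' in 𝓝 g, g' ∈ Fc B (1 / ((m : ℝ) + 1)) ((n : ℝ) + 1) :=
    mem_interior_iff_mem_nhds.1 hn
  have h3 : |B S g - c| ≤ ε / 4 := by
    have h4 : Tendsto (fun T => |B S g - B T g|) atTop (𝓝 |B S g - c|) :=
      (tendsto_const_nhds.sub hc).abs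
    refine le_of_tendsto h4 ?_
    filter_upwards [eventually_ge_atTop ((n : ℝ) + 1)] with T hT
    exact (interior_subset hn S hS T hT).trans hm.le
  filter_upwards [prod_mem_prod (Ici_mem_atTop ((n : ℝ) + 1)) (h1.and h2)] with p hp
  obtain ⟨hp1, hp2, hp3⟩ := hp
  rw [Real.dist_eq] at hp2
  have h5 := (hp3 p.1 hp1 S hS).trans hm.le
  rw [Real.dist_eq]
  have e : B p.1 p.2 - c = (B p.1 p.2 - B S p.2) + ((B S p.2 - B S g) + (B S g - c)) := by ring
  rw [e]
  have h6 := abs_add_le (B p.1 p.2 - B S p.2) ((B S p.2 - B S g) + (B S g - c))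
  have h7 := abs_add_le (B S p.2 - B S g) (B S g - c)
  linarith

/-- convergence at a generic parameter is joint convergence -/
theorem ev_joint {B : ℝ → X → ℝ} (hB : Nice B) :
    ∀ᶠ g in residual X, (∃ c, Tendsto (fun T => B T g) atTop (𝓝 c)) →
      ∀ m : ℕ, ∃ n : ℕ, g ∈ interior (Fc B (1 / ((m : ℝ) + 1)) ((n : ℝ) + 1)) := by
  have key : ∀ m n : ℕ, ∀ᶠ g in residual X, g ∈ Fc B (1 / ((m : ℝ) + 1)) ((n : ℝ) + 1) →
      g ∈ interior (Fc B (1 / ((m : ℝ) + 1)) ((n : ℝ) + 1)) :=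
    fun m n => ev_int (isClosed_Fc hB _ (by positivity))
  filter_upwards [eventually_countable_forall.2 fun m => eventually_countable_forall.2 (key m)]
    with g hg hc m
  obtain ⟨c, hc⟩ := hc
  obtain ⟨n, hn⟩ := mem_Fc_of_tendsto hc (show (0 : ℝ) < 1 / ((m : ℝ) + 1) by positivity)
  exact ⟨n, hg m n hn⟩

/-- a countable intersection of open sets is residual or empty, locally -/
theorem zero_one {ι : Type*} [Countable ι] {W : ι → Set X} (hW : ∀ i, IsOpen (W i)) :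
    ∃ U₁ U₂ : Set X, IsOpen U₁ ∧ IsOpen U₂ ∧ Disjoint U₁ U₂ ∧ Dense (U₁ ∪ U₂) ∧
      (∀ᶠ g in residual X, g ∈ U₁ → ∀ i, g ∈ W i) ∧ ∀ g ∈ U₂, ¬ ∀ i, g ∈ W i := by
  set G : Set X := {g | ∀ i, g ∈ W i} with hG
  refine ⟨interior (closure G), (closure G)ᶜ, isOpen_interior, isClosed_closure.isOpen_compl,
    ?_, ?_, ?_, ?_⟩
  · exact disjoint_compl_right.mono_left interior_subset
  · rw [dense_iff_inter_open]
    intro O hO hne
    by_cases h : O ⊆ closure G
    · obtain ⟨g, hg⟩ := hne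
      exact ⟨g, hg, Or.inl (interior_maximal h hO hg)⟩
    · obtain ⟨g, hg, hg'⟩ := not_subset.1 h
      exact ⟨g, hg, Or.inr hg'⟩
  · have key : ∀ i, ∀ᶠ g in residual X, g ∈ interior (closure G) → g ∈ W i := by
      intro i
      have hd : Dense (W i ∪ (closure (interior (closure G)))ᶜ) := by
        rw [dense_iff_inter_open]
        intro O hO hne
        by_cases h : (O ∩ interior (closure G)).Nonempty
        · obtain ⟨g, hg, hg'⟩ := h
          have h1 : g ∈ closure G := interior_subset hg'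
          obtain ⟨g', h2, h3⟩ := mem_closure_iff.1 h1 O hO hg
          exact ⟨g', h2, Or.inl (h3 i)⟩
        · obtain ⟨g, hg⟩ := hne
          refine ⟨g, hg, Or.inr fun hg' => h ?_⟩
          exact mem_closure_iff.1 hg' O hO hg
      filter_upwards [residual_of_dense_open ((hW i).union isClosed_closure.isOpen_compl) hd]
        with g hg hgU
      rcases hg with hg | hg
      · exact hg
      · exact absurd (subset_closure hgU) hg
    filter_upwards [eventually_countable_forall.2 key] with g hg hgU i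
    exact hg i hgU
  · intro g hg hg'
    exact hg (subset_closure hg')

end one

section spectra

variable {X : Type*} [TopologicalSpace X] (Y : Spectra X) {n : ℕ}

/-- joint convergence for the countable family of test functions implies it for all of them -/
theorem joint_of_tf (L : LocalStat (Fin n → ℝ)) (g : X)
    (h1 : ∀ a : ℕ × ℕ, ∃ c,
      Tendsto (fun p : ℝ × X => S Y L (tf a) p.1 p.2) (atTop ×ˢ 𝓝 g) (𝓝 c))
    (h2 : ∀ m : ℕ, ∃ c,
      Tendsto (fun p : ℝ × X => S Y L (cut m) p.1 p.2) (atTop ×ˢ 𝓝 g) (𝓝 c))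
    {f : (Fin n → ℝ) → ℝ} (hf : Continuous f) (hs : HasCompactSupport f) :
    ∃ c, Tendsto (fun p : ℝ × X => S Y L f p.1 p.2) (atTop ×ˢ 𝓝 g) (𝓝 c) := by
  obtain ⟨m, hm⟩ := exists_radius hf hs
  obtain ⟨C, hC⟩ := h2 m
  have hC1 : ∀ᶠ p : ℝ × X in atTop ×ˢ 𝓝 g, S Y L (cut m) p.1 p.2 < |C| + 1 :=
    hC.eventually (gt_mem_nhds (show C < |C| + 1 by linarith [le_abs_self C]))
  have hpos : ∀ᶠ p : ℝ × X in atTop ×ˢ 𝓝 g, 0 < p.1 :=
    tendsto_fst.eventually (eventually_gt_atTop (0 : ℝ))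
  have hcau : Cauchy (map (fun p : ℝ × X => S Y L f p.1 p.2) (atTop ×ˢ 𝓝 g)) := by
    rw [Metric.cauchy_iff]
    refine ⟨inferInstance, fun ε hε => ?_⟩
    set η : ℝ := ε / (4 * (|C| + 1)) with hη
    have hη0 : 0 < η := by positivity
    obtain ⟨k, hk⟩ := hm η hη0
    obtain ⟨c, hc⟩ := h1 (k, m)
    have h3 := (Metric.tendsto_nhds.1 hc) (ε / 4) (by positivity)
    have hall := h3.and (hC1.and hpos)
    have hsum : ∀ p : ℝ × X, dist (S Y L (tf (k, m)) p.1 p.2) c < ε / 4 ∧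
        S Y L (cut m) p.1 p.2 < |C| + 1 ∧ 0 < p.1 → |S Y L f p.1 p.2 - c| < ε / 2 := by
      rintro ⟨T, g'⟩ ⟨e1, e2, e3⟩
      simp only at e1 e2 e3 ⊢
      rw [Real.dist_eq] at e1
      have e4 : |S Y L f T g' - S Y L (tf (k, m)) T g'| ≤ η * S Y L (cut m) T g' := by
        unfold S
        rw [← sub_div, ← Finset.sum_sub_distrib, abs_div, abs_of_pos e3, ← mul_div_assoc]
        apply div_le_div_of_nonneg_right _ e3.le
        rw [Finset.mul_sum]
        exact (Finset.abs_sum_le_sum_abs _ _).trans (Finset.sum_le_sum fun i _ => hk _)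
      have e5 : η * S Y L (cut m) T g' ≤ η * (|C| + 1) := mul_le_mul_of_nonneg_left e2.le hη0.le
      have e6 : η * (|C| + 1) = ε / 4 := by
        rw [hη]
        field_simp
      have e7 : |S Y L f T g' - c| ≤
          |S Y L f T g' - S Y L (tf (k, m)) T g'| + |S Y L (tf (k, m)) T g' - c| := by
        have e : S Y L f T g' - c =
          (S Y L f T g' - S Y L (tf (k, m)) T g') + (S Y L (tf (k, m)) T g' - c) := by ring
        rw [e]
        exact abs_add_le _ _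
      linarith
    refine ⟨_, image_mem_map hall, ?_⟩
    rintro _ ⟨p, hp, rfl⟩ _ ⟨q, hq, rfl⟩
    have e1 := hsum p hp
    have e2 := hsum q hq
    rw [Real.dist_eq]
    have e : S Y L f p.1 p.2 - S Y L f q.1 q.2 =
      (S Y L f p.1 p.2 - c) - (S Y L f q.1 q.2 - c) := by ring
    have h4 : |S Y L f p.1 p.2 - S Y L f q.1 q.2| ≤
        |S Y L f p.1 p.2 - c| + |S Y L f q.1 q.2 - c| := by
      rw [e]
      exact abs_sub _ _
    linarith
  obtain ⟨c, hc⟩ := CompleteSpace.complete hcau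
  exact ⟨c, hc⟩

variable {𝒜 : Type} [Countable 𝒜] (d : 𝒜 → ℕ) (L : ∀ a, LocalStat (Fin (d a) → ℝ))

/-- the statistics have limits at `g` for all test functions -/
def Lims (g : X) : Prop :=
  ∀ a, ∀ f : (Fin (d a) → ℝ) → ℝ, Continuous f → HasCompactSupport f →
    ∃ c, Tendsto (fun T => S Y (L a) f T g) atTop (𝓝 c)

/-- the statistics have joint limits at `g` for all test functions -/
def Joint (g : X) : Prop :=
  ∀ a, ∀ f : (Fin (d a) → ℝ) → ℝ, Continuous f → HasCompactSupport f →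
    ∃ c, Tendsto (fun p : ℝ × X => S Y (L a) f p.1 p.2) (atTop ×ˢ 𝓝 g) (𝓝 c)

/-- the open sets whose intersection is the set of the parameters with joint limits -/
def Wo (i : 𝒜 × ((ℕ × ℕ) ⊕ ℕ) × ℕ) : Set X :=
  ⋃ k : ℕ, interior (Fc (S Y (L i.1) (bas i.2.1)) (1 / ((i.2.2 : ℝ) + 1)) ((k : ℝ) + 1))

theorem isOpen_Wo (i : 𝒜 × ((ℕ × ℕ) ⊕ ℕ) × ℕ) : IsOpen (Wo Y d L i) :=
  isOpen_iUnion fun _ => isOpen_interior

theorem joint_of_Wo {g : X} (h : ∀ i, g ∈ Wo Y d L i) : Joint Y d L g := by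
  have key : ∀ a (b : (ℕ × ℕ) ⊕ ℕ), ∃ c,
      Tendsto (fun p : ℝ × X => S Y (L a) (bas b) p.1 p.2) (atTop ×ˢ 𝓝 g) (𝓝 c) := by
    intro a b
    refine joint_of_Fc (nice_S Y (L a) (bas_cont b)) fun m => ?_
    exact mem_iUnion.1 (h (a, b, m))
  intro a f hf hs
  exact joint_of_tf Y (L a) g (fun b => key a (Sum.inl b)) (fun b => key a (Sum.inr b)) hf hs

/-- convergence at a generic parameter is joint convergence -/
theorem ev_Wo : ∀ᶠ g in residual X, Lims Y d L g → ∀ i, g ∈ Wo Y d L i := by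
  have key : ∀ (a : 𝒜) (b : (ℕ × ℕ) ⊕ ℕ), ∀ᶠ g in residual X,
      (∃ c, Tendsto (fun T => S Y (L a) (bas b) T g) atTop (𝓝 c)) →
      ∀ m : ℕ, ∃ k : ℕ, g ∈ interior (Fc (S Y (L a) (bas b)) (1 / ((m : ℝ) + 1)) ((k : ℝ) + 1)) :=
    fun a b => ev_joint (nice_S Y (L a) (bas_cont b))
  filter_upwards [eventually_countable_forall.2 fun a => eventually_countable_forall.2 (key a)]
    with g hg hL i
  exact mem_iUnion.2 (hg i.1 i.2.1 (hL i.1 _ (bas_cont _) (bas_supp _)) i.2.2)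

theorem ev_joint_of_lims : ∀ᶠ g in residual X, Lims Y d L g → Joint Y d L g := by
  filter_upwards [ev_Wo Y d L] with g hg hL
  exact joint_of_Wo Y d L (hg hL)

/-- local zero-one law for the convergence -/
theorem lims_zero_one : ∃ U₁ U₂ : Set X, IsOpen U₁ ∧ IsOpen U₂ ∧ Disjoint U₁ U₂ ∧
    Dense (U₁ ∪ U₂) ∧ (∀ᶠ g in residual X, g ∈ U₁ → Joint Y d L g) ∧
      ∀ᶠ g in residual X, g ∈ U₂ → ¬ Lims Y d L g := by
  obtain ⟨U₁, U₂, h1, h2, h3, h4, h5, h6⟩ := zero_one (isOpen_Wo Y d L)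
  refine ⟨U₁, U₂, h1, h2, h3, h4, ?_, ?_⟩
  · filter_upwards [h5] with g hg hgU
    exact joint_of_Wo Y d L (hg hgU)
  · filter_upwards [ev_Wo Y d L] with g hg hgU hL
    exact h6 g hgU (hg hL)

end spectra

end Pool.Agent.K7.H40.GM
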