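import Mathlib

/-!
# Generic members of generic deformations
-/

set_option autoImplicit false

open Set Filter Topology

namespace Pool.Agent.K7.H40.GM

variable {X Y : Type*} [TopologicalSpace X] [TopologicalSpace Y]

/-- the slices of a dense open set -/
theorem dense_slice [SecondCountableTopology Y] {O : Set (X × Y)} (hO : IsOpen O) (hd : Dense O) :
    ∀ᶠ x in residual X, Dense {y | (x, y) ∈ O} := by
  have key : ∀ V ∈ TopologicalSpace.countableBasis Y, V.Nonempty →
      ∀ᶠ x in residual X, ∃ y ∈ V, (x, y) ∈ O := by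
    intro V hV hne
    have hVo : IsOpen V := TopologicalSpace.isOpen_of_mem_countableBasis hV
    have e : {x : X | ∃ y ∈ V, (x, y) ∈ O} = Prod.fst '' (O ∩ univ ×ˢ V) := by
      ext x
      constructor
      · rintro ⟨y, hy, hxy⟩
        exact ⟨(x, y), ⟨hxy, mem_univ _, hy⟩, rfl⟩
      · rintro ⟨⟨x', y⟩, ⟨hxy, -, hy⟩, rfl⟩
        exact ⟨y, hy, hxy⟩
    have ho : IsOpen {x : X | ∃ y ∈ V, (x, y) ∈ O} := by
      rw [e]
      exact isOpenMap_fst _ (hO.inter (isOpen_univ.prod hVo))
    have hde : Dense {x : X | ∃ y ∈ V, (x, y) ∈ O} := by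
      rw [dense_iff_inter_open]
      intro W hW hWne
      obtain ⟨⟨x, y⟩, ⟨hx, hy⟩, hxy⟩ :=
        hd.inter_open_nonempty (W ×ˢ V) (hW.prod hVo) (hWne.prod hne)
      exact ⟨x, hx, y, hy, hxy⟩
    exact residual_of_dense_open ho hde
  have h1 : ∀ᶠ x in residual X, ∀ V ∈ TopologicalSpace.countableBasis Y, V.Nonempty →
      ∃ y ∈ V, (x, y) ∈ O := by
    rw [eventually_countable_ball (TopologicalSpace.countable_countableBasis Y)]
    intro V hV
    by_cases hne : V.Nonempty
    · filter_upwards [key V hV hne] with x hx _ using hx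
    · exact Eventually.of_forall fun x h => absurd h hne
  filter_upwards [h1] with x hx
  rw [(TopologicalSpace.isBasis_countableBasis Y).dense_iff]
  intro V hV hne
  obtain ⟨y, hy, hxy⟩ := hx V hV hne
  exact ⟨y, hy, hxy⟩

/-- the slices of a residual set -/
theorem ev_slice [SecondCountableTopology Y] {p : X × Y → Prop}
    (h : ∀ᶠ z in residual (X × Y), p z) :
    ∀ᶠ x in residual X, ∀ᶠ y in residual Y, p (x, y) := by
  obtain ⟨S, hSo, hSd, hSc, hSs⟩ := mem_residual_iff.1 h
  have h1 : ∀ᶠ x in residual X, ∀ O ∈ S, Dense {y : Y | (x, y) ∈ O} := by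
    rw [eventually_countable_ball hSc]
    exact fun O hO => dense_slice (hSo O hO) (hSd O hO)
  filter_upwards [h1] with x hx
  have h2 : ∀ᶠ y in residual Y, ∀ O ∈ S, (x, y) ∈ O := by
    rw [eventually_countable_ball hSc]
    intro O hO
    have hc : Continuous fun y : Y => (x, y) := by fun_prop
    exact residual_of_dense_open ((hSo O hO).preimage hc) (hx O hO)
  filter_upwards [h2] with y hy
  exact hSs (mem_sInter.2 hy)

/-- A residual set is pulled back to a residual set by a continuous open map on an open set. -/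
theorem ev_pull {O : Set Y} {θ : Y → X} (hO : IsOpen O) (hc : ContinuousOn θ O)
    (ho : ∀ W ⊆ O, IsOpen W → IsOpen (θ '' W)) {p : X → Prop} (h : ∀ᶠ x in residual X, p x) :
    ∀ᶠ y in residual Y, y ∈ O → p (θ y) := by
  obtain ⟨S, hSo, hSd, hSc, hSs⟩ := mem_residual_iff.1 h
  have h1 : ∀ᶠ y in residual Y, ∀ Q ∈ S, y ∈ O → θ y ∈ Q := by
    rw [eventually_countable_ball hSc]
    intro Q hQ
    have h2 : IsOpen ((O ∩ θ ⁻¹' Q) ∪ (closure O)ᶜ) :=
      (hc.isOpen_inter_preimage hO (hSo Q hQ)).union isClosed_closure.isOpen_compl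
    have h3 : Dense ((O ∩ θ ⁻¹' Q) ∪ (closure O)ᶜ) := by
      rw [dense_iff_inter_open]
      intro W hW hne
      by_cases hWO : (W ∩ O).Nonempty
      · have h4 := ho (W ∩ O) inter_subset_right (hW.inter hO)
        obtain ⟨x, ⟨y, hy, rfl⟩, hx⟩ :=
          (hSd Q hQ).inter_open_nonempty _ h4 (hWO.image θ)
        exact ⟨y, hy.1, Or.inl ⟨hy.2, hx⟩⟩
      · obtain ⟨y, hy⟩ := hne
        refine ⟨y, hy, Or.inr fun hcl => ?_⟩
        rw [mem_closure_iff] at hcl
        exact hWO (hcl W hW hy)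
    filter_upwards [residual_of_dense_open h2 h3] with y hy hyO
    rcases hy with h5 | h5
    · exact h5.2
    · exact absurd (subset_closure hyO) h5
  filter_upwards [h1] with y hy hyO
  exact hSs (mem_sInter.2 fun Q hQ => hy Q hQ hyO)

/-- Generic members of generic deformations: `θ (x, y)` is the deformation of `x` with the parameter
`y`, for `(x, y)` in the open set `O`. -/
theorem defo_iff [BaireSpace X] [SecondCountableTopology Y] [BaireSpace Y] {O : Set (X × Y)}
    {θ : X × Y → X} (hO : IsOpen O) (hc : ContinuousOn θ O)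
    (ho : ∀ W ⊆ O, IsOpen W → IsOpen (θ '' W)) {y₀ : Y}
    (h0 : ∀ x, (x, y₀) ∈ O ∧ θ (x, y₀) = x) {p : X → Prop}
    (hp : (¬ ∀ᶠ x in residual X, p x) → ∃ U : Set X, IsOpen U ∧ U.Nonempty ∧
      ∀ᶠ x in residual X, x ∈ U → ¬ p x) :
    (∀ᶠ x in residual X, p x) ↔
      ∀ᶠ x in residual X, ∀ᶠ y in residual Y, (x, y) ∈ O → p (θ (x, y)) := by
  constructor
  · exact fun h => ev_slice (ev_pull hO hc ho h)
  · intro h
    by_contra hn
    obtain ⟨U, hU, hne, hg⟩ := hp hn
    have h1 := ev_slice (ev_pull hO hc ho hg)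
    obtain ⟨x, hxU, hx1, hx2⟩ :=
      (dense_of_mem_residual (h.and h1)).inter_open_nonempty U hU hne
    have h2 : IsOpen {y : Y | (x, y) ∈ O ∩ θ ⁻¹' U} := by
      have h3 := hc.isOpen_inter_preimage hO hU
      have h4 : Continuous fun y : Y => (x, y) := by fun_prop
      exact h3.preimage h4
    have h3 : ({y : Y | (x, y) ∈ O ∩ θ ⁻¹' U}).Nonempty := by
      refine ⟨y₀, (h0 x).1, ?_⟩
      show θ (x, y₀) ∈ U
      rw [(h0 x).2]
      exact hxU
    obtain ⟨y, ⟨hyO, hyU⟩, hy1, hy2⟩ :=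
      (dense_of_mem_residual (hx1.and hx2)).inter_open_nonempty _ h2 h3
    exact hy2 hyO hyU (hy1 hyO)

end Pool.Agent.K7.H40.GM
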