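import Pool.Agent.Q205.Baire.Joint

/-!
# Generic convergence to an unspecified limit, and dense sets of parameters
-/

set_option autoImplicit false

open Set Filter Topology MeasureTheory

namespace Pool.Agent.K7.H40.GM

open Pool.Agent.Q205.Baire

section closed

variable {X : Type*} [TopologicalSpace X]

/-- Baire's theorem for a sequence of closed sets -/
theorem loc_of_generic [BaireSpace X] {K : ℕ → Set X} (hK : ∀ n, IsClosed (K n))
    (h : ∀ᶠ g in residual X, ∃ n, g ∈ K n) {U : Set X} (hU : IsOpen U) (hne : U.Nonempty) :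
    ∃ n, (U ∩ interior (K n)).Nonempty := by
  by_contra hcon
  push Not at hcon
  have key : ∀ n, ∀ᶠ g in residual X, g ∈ U → g ∉ K n := by
    intro n
    filter_upwards [ev_int (hK n)] with g hg hgU hgK
    have : g ∈ U ∩ interior (K n) := ⟨hgU, hg hgK⟩
    rw [hcon n] at this
    exact this
  have hall := eventually_countable_forall.2 key
  obtain ⟨g, hgU, ⟨n, hn⟩, hg2⟩ :=
    (dense_of_mem_residual (h.and hall)).inter_open_nonempty U hU hne
  exact hg2 n hgU hn

theorem generic_of_loc {K : ℕ → Set X}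
    (h : ∀ U : Set X, IsOpen U → U.Nonempty → ∃ n, (U ∩ interior (K n)).Nonempty) :
    ∀ᶠ g in residual X, ∃ n, g ∈ K n := by
  have hd : Dense (⋃ n : ℕ, interior (K n)) := by
    rw [dense_iff_inter_open]
    intro U hU hne
    obtain ⟨n, g, hg, hg'⟩ := h U hU hne
    exact ⟨g, hg, mem_iUnion.2 ⟨n, hg'⟩⟩
  filter_upwards [residual_of_dense_open (isOpen_iUnion fun _ => isOpen_interior) hd] with g hg
  obtain ⟨n, hn⟩ := mem_iUnion.1 hg
  exact ⟨n, interior_subset hn⟩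

/-- if the local property fails, then it fails generically in a nonempty open set -/
theorem generic_fail {K : ℕ → Set X} (hK : ∀ n, IsClosed (K n))
    (h : ¬ ∀ U : Set X, IsOpen U → U.Nonempty → ∃ n, (U ∩ interior (K n)).Nonempty) :
    ∃ U : Set X, IsOpen U ∧ U.Nonempty ∧ ∀ᶠ g in residual X, g ∈ U → ∀ n, g ∉ K n := by
  push Not at h
  obtain ⟨U, hU, hne, hcon⟩ := h
  refine ⟨U, hU, hne, ?_⟩
  have key : ∀ n, ∀ᶠ g in residual X, g ∈ U → g ∉ K n := by
    intro n
    filter_upwards [ev_int (hK n)] with g hg hgU hgK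
    have : g ∈ U ∩ interior (K n) := ⟨hgU, hg hgK⟩
    rw [hcon n] at this
    exact this
  filter_upwards [eventually_countable_forall.2 key] with g hg hgU n
  exact hg n hgU

end closed

variable {X : Type*} [TopologicalSpace X]

/-- the oscillation is at most `ε` from time `T0` on -/
def Fc (B : ℝ → X → ℝ) (ε T0 : ℝ) : Set X :=
  {g | ∀ T, T0 ≤ T → ∀ T', T0 ≤ T' → |B T g - B T' g| ≤ ε}

theorem near_time {B : ℝ → X → ℝ} (hB : Nice B) {g : X} {T : ℝ} (hT : 0 < T) {p : ℝ → Prop}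
    (hp : ∀ᶠ y in 𝓝 (B T g), p y) : ∃ S, T ≤ S ∧ p (B S g) ∧ ContinuousAt (B S) g := by
  have h2 : ∀ᶠ S in 𝓝[≥] T, p (B S g) := (hB.right g T hT).eventually hp
  rw [eventually_iff, mem_nhdsGE_iff_exists_Ico_subset] at h2
  obtain ⟨u, hu, hsub⟩ := h2
  obtain ⟨T', hT1, hT2, hc⟩ := hB.cont g T hT (u - T) (sub_pos.2 hu)
  exact ⟨T', hT1, hsub ⟨hT1, by linarith⟩, hc⟩

theorem isClosed_Fc {B : ℝ → X → ℝ} (hB : Nice B) (ε : ℝ) {T0 : ℝ} (hT0 : 0 < T0) :
    IsClosed (Fc B ε T0) := by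
  rw [← isOpen_compl_iff, isOpen_iff_mem_nhds]
  intro g hg
  have hg' : ∃ T, T0 ≤ T ∧ ∃ T', T0 ≤ T' ∧ ε < |B T g - B T' g| := by
    by_contra h
    push Not at h
    exact hg h
  obtain ⟨T, hT, T', hT', hdev⟩ := hg'
  have h1 : ∀ᶠ y in 𝓝 (B T g), ε < |y - B T' g| := by
    have : Continuous fun y : ℝ => |y - B T' g| := by fun_prop
    exact (this.tendsto (B T g)).eventually (lt_mem_nhds hdev)
  obtain ⟨S, hS, hS1, hS2⟩ := near_time hB (hT0.trans_le hT) h1
  have h2 : ∀ᶠ y in 𝓝 (B T' g), ε < |B S g - y| := by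
    have : Continuous fun y : ℝ => |B S g - y| := by fun_prop
    exact (this.tendsto (B T' g)).eventually (lt_mem_nhds hS1)
  obtain ⟨S', hS', hS1', hS2'⟩ := near_time hB (hT0.trans_le hT') h2
  have h4 : ContinuousAt (fun g => |B S g - B S' g|) g := (hS2.sub hS2').abs
  have h5 : ∀ᶠ g' in 𝓝 g, ε < |B S g' - B S' g'| := h4.eventually (lt_mem_nhds hS1')
  filter_upwards [h5] with g' hg'
  intro hF
  exact absurd (hF S (hT.trans hS) S' (hT'.trans hS')) (not_le.2 hg')

/-- locally uniform Cauchy property -/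
def LocCauchy (B : ℝ → X → ℝ) : Prop :=
  ∀ ε : ℝ, 0 < ε → ∀ U : Set X, IsOpen U → U.Nonempty →
    ∃ V : Set X, IsOpen V ∧ V.Nonempty ∧ V ⊆ U ∧ ∃ T0 : ℝ, ∀ g ∈ V, ∀ T, T0 ≤ T →
      ∀ T', T0 ≤ T' → |B T g - B T' g| ≤ ε

theorem locCauchy_iff {B : ℝ → X → ℝ} : LocCauchy B ↔ ∀ ε : ℝ, 0 < ε → ∀ U : Set X, IsOpen U →
    U.Nonempty → ∃ n : ℕ, (U ∩ interior (Fc B ε ((n : ℝ) + 1))).Nonempty := by
  constructor
  · intro h ε hε U hU hne
    obtain ⟨V, hV, ⟨g, hg⟩, hVU, T0, hT0⟩ := h ε hε U hU hne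
    obtain ⟨n, hn⟩ := exists_nat_ge T0
    refine ⟨n, g, hVU hg, ?_⟩
    have hsub : V ⊆ Fc B ε ((n : ℝ) + 1) := fun g' hg' T hT T' hT' =>
      hT0 g' hg' T (by linarith) T' (by linarith)
    exact interior_maximal hsub hV hg
  · intro h ε hε U hU hne
    obtain ⟨n, hn⟩ := h ε hε U hU hne
    exact ⟨U ∩ interior (Fc B ε ((n : ℝ) + 1)), hU.inter isOpen_interior, hn, inter_subset_left,
      (n : ℝ) + 1, fun g hg => interior_subset hg.2⟩

theorem ev_cauchy_of_loc {B : ℝ → X → ℝ} (h : LocCauchy B) :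
    ∀ᶠ g in residual X, ∃ c, Tendsto (fun T => B T g) atTop (𝓝 c) := by
  rw [locCauchy_iff] at h
  have key : ∀ m : ℕ, ∀ᶠ g in residual X, ∃ n : ℕ, g ∈ Fc B (1 / ((m : ℝ) + 1)) ((n : ℝ) + 1) :=
    fun m => generic_of_loc (h _ (by positivity))
  filter_upwards [eventually_countable_forall.2 key] with g hg
  have hC : CauchySeq fun T => B T g := by
    rw [Metric.cauchySeq_iff]
    intro ε hε
    obtain ⟨m, hm⟩ := exists_nat_one_div_lt hε
    obtain ⟨n, hn⟩ := hg m
    refine ⟨(n : ℝ) + 1, fun T hT T' hT' => ?_⟩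
    rw [Real.dist_eq]
    exact (hn T hT T' hT').trans_lt hm
  exact cauchySeq_tendsto_of_complete hC

theorem mem_Fc_of_tendsto {B : ℝ → X → ℝ} {g : X} {c : ℝ}
    (h : Tendsto (fun T => B T g) atTop (𝓝 c)) {ε : ℝ} (hε : 0 < ε) :
    ∃ n : ℕ, g ∈ Fc B ε ((n : ℝ) + 1) := by
  have h1 := (Metric.tendsto_nhds.1 h) (ε / 2) (by positivity)
  obtain ⟨T0, hT0⟩ := eventually_atTop.1 h1
  obtain ⟨n, hn⟩ := exists_nat_ge T0
  refine ⟨n, fun T hT T' hT' => ?_⟩
  have h2 := hT0 T (by linarith)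
  have h3 := hT0 T' (by linarith)
  rw [Real.dist_eq] at h2 h3
  have h4 : |B T g - B T' g| ≤ |B T g - c| + |B T' g - c| := by
    have e : B T g - B T' g = (B T g - c) - (B T' g - c) := by ring
    rw [e]
    exact abs_sub _ _
  linarith

theorem loc_of_ev_cauchy [BaireSpace X] {B : ℝ → X → ℝ} (hB : Nice B)
    (h : ∀ᶠ g in residual X, ∃ c, Tendsto (fun T => B T g) atTop (𝓝 c)) : LocCauchy B := by
  rw [locCauchy_iff]
  intro ε hε U hU hne
  refine loc_of_generic (K := fun n : ℕ => Fc B ε ((n : ℝ) + 1))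
    (fun n => isClosed_Fc hB ε (by positivity)) ?_ hU hne
  filter_upwards [h] with g hg
  obtain ⟨c, hc⟩ := hg
  exact mem_Fc_of_tendsto hc hε

/-- failure of the locally uniform Cauchy property is generic on an open set -/
theorem osc_of_not_locCauchy {B : ℝ → X → ℝ} (hB : Nice B) (h : ¬ LocCauchy B) :
    ∃ ε : ℝ, 0 < ε ∧ ∃ U : Set X, IsOpen U ∧ U.Nonempty ∧ ∀ᶠ g in residual X, g ∈ U →
      ∀ T0 : ℝ, ∃ T, T0 ≤ T ∧ ∃ T', T0 ≤ T' ∧ ε < |B T g - B T' g| := by
  rw [locCauchy_iff] at h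
  push Not at h
  obtain ⟨ε, hε, h⟩ := h
  have h' : ¬ ∀ U : Set X, IsOpen U → U.Nonempty →
      ∃ n : ℕ, (U ∩ interior (Fc B ε ((n : ℝ) + 1))).Nonempty := by
    push Not
    exact h
  obtain ⟨U, hU, hne, hg⟩ := generic_fail (K := fun n : ℕ => Fc B ε ((n : ℝ) + 1))
    (fun n => isClosed_Fc hB ε (by positivity)) h'
  refine ⟨ε, hε, U, hU, hne, ?_⟩
  filter_upwards [hg] with g hg hgU T0
  obtain ⟨n, hn⟩ := exists_nat_ge T0
  have h1 := hg hgU n
  by_contra hcon
  push Not at hcon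
  exact h1 fun T hT T' hT' => hcon T (by linarith) T' (by linarith)

/-- the locally uniform property may be tested on a dense set -/
theorem locUnif_dense {B : ℝ → X → ℝ} (hB : Nice B) {c : ℝ} {S : Set X} (hS : Dense S)
    (h : ∀ ε : ℝ, 0 < ε → ∀ U : Set X, IsOpen U → U.Nonempty →
      ∃ V : Set X, IsOpen V ∧ V.Nonempty ∧ V ⊆ U ∧ ∃ T0 : ℝ, ∀ g ∈ V, g ∈ S → ∀ T, T0 ≤ T →
        |B T g - c| ≤ ε) : LocUnif B c := by
  intro ε hε U hU hne
  obtain ⟨V, hV, hVne, hVU, T0, hT0⟩ := h ε hε U hU hne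
  refine ⟨V, hV, hVne, hVU, max T0 1, ?_⟩
  have hcl : IsClosed (F B c ε (max T0 1)) := isClosed_F hB c ε (by positivity)
  have h1 : V ∩ S ⊆ F B c ε (max T0 1) := fun g hg T hT =>
    hT0 g hg.1 hg.2 T ((le_max_left _ _).trans hT)
  have h2 : V ⊆ F B c ε (max T0 1) :=
    (hS.open_subset_closure_inter hV).trans (closure_minimal h1 hcl)
  exact fun g hg T hT => h2 hg T hT

section spectra

variable (Y : Spectra X) {n : ℕ}

/-- convergence for the countable family of test functions implies convergence for all of them -/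
theorem conv_of_tf (L : LocalStat (Fin n → ℝ)) (g : X)
    (h1 : ∀ a : ℕ × ℕ, ∃ c, Tendsto (fun T => S Y L (tf a) T g) atTop (𝓝 c))
    (h2 : ∀ m : ℕ, ∃ c, Tendsto (fun T => S Y L (cut m) T g) atTop (𝓝 c))
    {f : (Fin n → ℝ) → ℝ} (hf : Continuous f) (hs : HasCompactSupport f) :
    ∃ c, Tendsto (fun T => S Y L f T g) atTop (𝓝 c) := by
  obtain ⟨m, hm⟩ := exists_radius hf hs
  obtain ⟨C, hC⟩ := h2 m
  have hC1 : ∀ᶠ T in atTop, S Y L (cut m) T g < |C| + 1 := by
    filter_upwards [hC.eventually (gt_mem_nhds (show C < |C| + 1 by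
      linarith [le_abs_self C]))] with T hT using hT
  refine cauchySeq_tendsto_of_complete (Metric.cauchySeq_iff.2 fun ε hε => ?_)
  set η : ℝ := ε / (4 * (|C| + 1)) with hη
  have hη0 : 0 < η := by positivity
  obtain ⟨k, hk⟩ := hm η hη0
  obtain ⟨c, hc⟩ := h1 (k, m)
  have h3 := (Metric.tendsto_nhds.1 hc) (ε / 4) (by positivity)
  obtain ⟨T0, hT0⟩ := eventually_atTop.1 (h3.and (hC1.and (eventually_gt_atTop (0 : ℝ))))
  have hsum : ∀ T : ℝ, T0 ≤ T → |S Y L f T g - c| < ε / 2 := by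
    intro T hT
    obtain ⟨e1, e2, e3⟩ := hT0 T hT
    rw [Real.dist_eq] at e1
    have e4 : |S Y L f T g - S Y L (tf (k, m)) T g| ≤ η * S Y L (cut m) T g := by
      unfold S
      rw [← sub_div, ← Finset.sum_sub_distrib, abs_div, abs_of_pos e3, ← mul_div_assoc]
      apply div_le_div_of_nonneg_right _ e3.le
      rw [Finset.mul_sum]
      exact (Finset.abs_sum_le_sum_abs _ _).trans (Finset.sum_le_sum fun i _ => hk _)
    have e5 : η * S Y L (cut m) T g ≤ η * (|C| + 1) := mul_le_mul_of_nonneg_left e2.le hη0.le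
    have e6 : η * (|C| + 1) = ε / 4 := by
      rw [hη]
      field_simp
    have e7 : |S Y L f T g - c| ≤
        |S Y L f T g - S Y L (tf (k, m)) T g| + |S Y L (tf (k, m)) T g - c| := by
      have e : S Y L f T g - c =
        (S Y L f T g - S Y L (tf (k, m)) T g) + (S Y L (tf (k, m)) T g - c) := by ring
      rw [e]
      exact abs_add_le _ _
    linarith
  refine ⟨T0, fun T hT T' hT' => ?_⟩
  rw [Real.dist_eq]
  have e1 := hsum T hT
  have e2 := hsum T' hT'
  have h4 : |S Y L f T g - S Y L f T' g| ≤ |S Y L f T g - c| + |S Y L f T' g - c| := by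
    have e : S Y L f T g - S Y L f T' g = (S Y L f T g - c) - (S Y L f T' g - c) := by ring
    rw [e]
    exact abs_sub _ _
  linarith

/-- generic convergence to an unspecified limit -/
theorem conv_iff [BaireSpace X] {𝒜 : Type} [Countable 𝒜] (d : 𝒜 → ℕ)
    (L : ∀ a, LocalStat (Fin (d a) → ℝ)) :
    (∀ᶠ g in residual X, ∀ a, ∀ f : (Fin (d a) → ℝ) → ℝ, Continuous f → HasCompactSupport f →
      ∃ c, Tendsto (fun T => S Y (L a) f T g) atTop (𝓝 c)) ↔
      ∀ a, ∀ f : (Fin (d a) → ℝ) → ℝ, Continuous f → HasCompactSupport f →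
        LocCauchy (S Y (L a) f) := by
  constructor
  · intro h a f hf hs
    apply loc_of_ev_cauchy (nice_S Y (L a) hf)
    filter_upwards [h] with g hg
    exact hg a f hf hs
  · intro h
    have h1 : ∀ᶠ g in residual X, ∀ a : 𝒜, ∀ b : ℕ × ℕ,
        ∃ c, Tendsto (fun T => S Y (L a) (tf b) T g) atTop (𝓝 c) := by
      rw [eventually_countable_forall]
      intro a
      rw [eventually_countable_forall]
      intro b
      exact ev_cauchy_of_loc (h a _ (tf_cont b) (tf_supp b))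
    have h2 : ∀ᶠ g in residual X, ∀ a : 𝒜, ∀ m : ℕ,
        ∃ c, Tendsto (fun T => S Y (L a) (cut m) T g) atTop (𝓝 c) := by
      rw [eventually_countable_forall]
      intro a
      rw [eventually_countable_forall]
      intro b
      exact ev_cauchy_of_loc (h a _ (cut_cont b) (cut_supp b))
    filter_upwards [h1, h2] with g hg1 hg2
    intro a f hf hs
    exact conv_of_tf Y (L a) g (hg1 a) (hg2 a) hf hs

end spectra

end Pool.Agent.K7.H40.GM
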