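import Pool.Agent.Q205.Baire.Joint

/-!
# Windows of heights: dense sets of parameters and generic parameters
-/

set_option autoImplicit false

open Set Filter Topology MeasureTheory

namespace Pool.Agent.K7.H40.GM

open Pool.Agent.Q205.Baire

variable {M : Type*} [TopologicalSpace M]

section stab

variable {E : Type*} [TopologicalSpace E]

/-- the sum over the indices which belong to `N` levels -/
noncomputable def Sg (X : Spectra M) (L : LocalStat E) (f : E → ℝ) (N : ℕ) (g : M) : ℝ :=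
  ∑ i ∈ L.I N, f (L.φ i (fun k => X.x k g))

theorem S_mul (X : Spectra M) (L : LocalStat E) (f : E → ℝ) {T : ℝ} (hT : 0 < T) (g : M) :
    Sg X L f (count X T g) g = S X L f T g * T := by
  unfold S Sg
  field_simp

theorem Sg_cont (X : Spectra M) (L : LocalStat E) {f : E → ℝ} (hf : Continuous f) (N : ℕ) :
    Continuous (Sg X L f N) := by
  have hx : Continuous (fun g' : M => (fun k => X.x k g' : ℕ → ℝ)) := continuous_pi X.cont
  exact continuous_finset_sum _ fun i _ => hf.comp ((L.cont i).comp hx)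

theorem Sg_mono (X : Spectra M) (L : LocalStat E) (hm : Monotone L.I) {f : E → ℝ}
    (h0 : ∀ z, 0 ≤ f z) (g : M) {N N' : ℕ} (h : N ≤ N') : Sg X L f N g ≤ Sg X L f N' g :=
  Finset.sum_le_sum_of_subset_of_nonneg (hm h) fun i _ _ => h0 _

/-- stability of the values on a window of heights -/
theorem stab (X : Spectra M) (L : LocalStat E) (hm : Monotone L.I) {f : E → ℝ}
    (hf : Continuous f) (h0 : ∀ z, 0 ≤ f z) {c ε ε' : ℝ} (hε : ε < ε') {ω : ℝ → ℝ}
    (hω : Continuous ω) {T : ℝ} (hT : 0 < T) {g : M}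
    (h : ∀ t ∈ Icc T (ω T), |S X L f t g - c| < ε) :
    ∀ᶠ T' in 𝓝[>] T, ∀ᶠ g' in 𝓝 g, ∀ t ∈ Icc T' (ω T'), |S X L f t g' - c| < ε' := by
  rcases lt_or_ge (ω T) T with hW | hW
  · have h1 : ∀ᶠ T' in 𝓝[>] T, ω T' < T' :=
      mem_nhdsWithin_of_mem_nhds ((hω.tendsto T).eventually_lt tendsto_id hW)
    filter_upwards [h1] with T' h2
    exact Eventually.of_forall fun g' t ht => absurd (ht.1.trans ht.2) (not_le.2 h2)
  have hWpos : 0 < ω T := hT.trans_le hW
  have hr := (nice_S X L hf).right g (ω T) hWpos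
  have h1 : ∀ᶠ s in 𝓝[≥] (ω T), |S X L f s g - c| < ε :=
    ((hr.sub continuousWithinAt_const).abs).eventually (gt_mem_nhds (h (ω T) ⟨hW, le_rfl⟩))
  rw [eventually_iff, mem_nhdsGE_iff_exists_Ico_subset] at h1
  obtain ⟨u, hu, hsub⟩ := h1
  have hu' : ω T < u := hu
  have hall : ∀ s, T ≤ s → s < u → |S X L f s g - c| < ε := by
    intro s hs1 hs2
    rcases le_or_gt s (ω T) with h2 | h2
    · exact h s ⟨hs1, h2⟩
    · exact hsub ⟨h2.le, hs2⟩
  have h2 : ∀ᶠ T' in 𝓝[>] T, ω T' < (ω T + u) / 2 :=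
    mem_nhdsWithin_of_mem_nhds ((hω.tendsto T).eventually (gt_mem_nhds (by linarith)))
  filter_upwards [h2, self_mem_nhdsWithin] with T' hT1 hT2
  have hT2' : T < T' := hT2
  set K := count X u g with hK
  have hR : 0 < |c| + |ε| + 2 := by positivity
  set δ : ℝ := min (T' - T) (min ((u - ω T) / 4) ((ε' - ε) * T / (|c| + |ε| + 2))) with hδ
  have hδ0 : 0 < δ := by
    have a1 : 0 < T' - T := by linarith
    have a2 : 0 < (u - ω T) / 4 := by linarith
    have a3 : 0 < (ε' - ε) * T / (|c| + |ε| + 2) :=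
      div_pos (mul_pos (by linarith) hT) hR
    exact lt_min a1 (lt_min a2 a3)
  have hδ1 : δ ≤ T' - T := min_le_left _ _
  have hδ2 : δ ≤ (u - ω T) / 4 := (min_le_right _ _).trans (min_le_left _ _)
  have hδ3 : δ * (|c| + |ε| + 2) ≤ (ε' - ε) * T := by
    have : δ ≤ (ε' - ε) * T / (|c| + |ε| + 2) := (min_le_right _ _).trans (min_le_right _ _)
    rwa [le_div_iff₀ hR] at this
  have hx : ∀ᶠ g' in 𝓝 g, ∀ k ∈ Finset.range (K + 1), |X.x k g' - X.x k g| < δ := by
    refine (Finset.eventually_all (Finset.range (K + 1))).2 fun k _ => ?_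
    have h3 := Metric.tendsto_nhds.1 ((X.cont k).tendsto g) δ hδ0
    simpa only [Real.dist_eq] using h3
  have hS : ∀ᶠ g' in 𝓝 g, ∀ N ∈ Finset.range (K + 1),
      |Sg X L f N g' - Sg X L f N g| < δ := by
    refine (Finset.eventually_all (Finset.range (K + 1))).2 fun N _ => ?_
    have h3 := Metric.tendsto_nhds.1 ((Sg_cont X L hf N).tendsto g) δ hδ0
    simpa only [Real.dist_eq] using h3
  filter_upwards [hx, hS] with g' hx hS t ht
  have htT : T ≤ t := hT2'.le.trans ht.1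
  have ht0 : 0 < t := hT.trans_le htT
  set N' := count X t g' with hN'
  have hNK : N' ≤ K := by
    by_contra hcon
    push Not at hcon
    have h3 : X.x K g' ≤ t := (lt_count X t g' K).1 hcon
    have h4 : u < X.x K g := not_le.1 ((lt_count X u g K).not.1 (lt_irrefl _))
    have h5 := hx K (Finset.mem_range.2 (Nat.lt_succ_self K))
    rw [abs_lt] at h5
    have h6 : t ≤ ω T' := ht.2
    linarith [h5.1]
  have hlo : count X (t - δ) g ≤ N' := by
    by_contra hcon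
    push Not at hcon
    have h3 : X.x N' g ≤ t - δ := (lt_count X (t - δ) g N').1 hcon
    have h5 := hx N' (Finset.mem_range.2 (Nat.lt_succ_of_le hNK))
    rw [abs_lt] at h5
    have h6 : X.x N' g' ≤ t := by linarith [h5.2]
    exact absurd ((lt_count X t g' N').2 h6) (lt_irrefl _)
  have hhi : N' ≤ count X (t + δ) g := by
    by_contra hcon
    push Not at hcon
    have h3 : X.x (count X (t + δ) g) g' ≤ t := (lt_count X t g' _).1 hcon
    have h5 := hx (count X (t + δ) g) (Finset.mem_range.2 (by omega))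
    rw [abs_lt] at h5
    have h6 : X.x (count X (t + δ) g) g ≤ t + δ := by linarith [h5.1]
    exact absurd ((lt_count X (t + δ) g _).2 h6) (lt_irrefl _)
  have htd : 0 < t - δ := by
    have h3 : T' ≤ t := ht.1
    linarith
  have e1 := S_mul X L f htd g
  have e2 := S_mul X L f (show 0 < t + δ by linarith) g
  have e3 := S_mul X L f ht0 g'
  have m1 := Sg_mono X L hm h0 g hlo
  have m2 := Sg_mono X L hm h0 g hhi
  have d1 := hS N' (Finset.mem_range.2 (Nat.lt_succ_of_le hNK))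
  have v1 := hall (t - δ) (by linarith [ht.1]) (by linarith [ht.2])
  have v2 := hall (t + δ) (by linarith) (by linarith [ht.2])
  rw [← hN'] at e3
  rw [abs_lt] at d1 v1 v2 ⊢
  have c1 : -|c| ≤ c := neg_abs_le c
  have c2 : c ≤ |c| := le_abs_self c
  have c3 : -|ε| ≤ ε := neg_abs_le ε
  have c4 : ε ≤ |ε| := le_abs_self ε
  have k1 : (ε' - ε) * T ≤ (ε' - ε) * t := mul_le_mul_of_nonneg_left htT (by linarith)
  constructor
  · -- lower bound
    have b1 : (t - δ) * (c - ε) ≤ S X L f (t - δ) g * (t - δ) := by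
      rw [mul_comm]
      exact mul_le_mul_of_nonneg_right (by linarith [v1.1]) htd.le
    have b2 : (t - δ) * (c - ε) - δ < S X L f t g' * t := by linarith [d1.1]
    have b3 : δ * (c - ε + 1) < δ * (|c| + |ε| + 2) := mul_lt_mul_of_pos_left (by linarith) hδ0
    have b4 : t * (c - ε') < S X L f t g' * t := by nlinarith
    have b5 : c - ε' < S X L f t g' := by
      rw [mul_comm] at b4
      exact lt_of_mul_lt_mul_right b4 ht0.le
    linarith
  · have b1 : S X L f (t + δ) g * (t + δ) ≤ (c + ε) * (t + δ) :=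
      mul_le_mul_of_nonneg_right (by linarith [v2.2]) (by linarith)
    have b2 : S X L f t g' * t < (c + ε) * (t + δ) + δ := by linarith [d1.2]
    have b3 : δ * (c + ε + 1) < δ * (|c| + |ε| + 2) := mul_lt_mul_of_pos_left (by linarith) hδ0
    have b4 : S X L f t g' * t < (c + ε') * t := by nlinarith
    have b5 : S X L f t g' < c + ε' := lt_of_mul_lt_mul_right b4 ht0.le
    linarith

end stab

section tests

variable {n : ℕ}

/-- the positive and negative parts of the countable family of test functions -/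
noncomputable def bp (t : ((ℕ × ℕ) ⊕ ℕ) × Bool) (z : Fin n → ℝ) : ℝ :=
  if t.2 = true then max (bas t.1 z) 0 else max (-bas t.1 z) 0

theorem bp_cont (t : ((ℕ × ℕ) ⊕ ℕ) × Bool) : Continuous (bp t : (Fin n → ℝ) → ℝ) := by
  have h := bas_cont (n := n) t.1
  unfold bp
  split_ifs
  · exact h.max continuous_const
  · exact h.neg.max continuous_const

theorem bp_supp (t : ((ℕ × ℕ) ⊕ ℕ) × Bool) : HasCompactSupport (bp t : (Fin n → ℝ) → ℝ) := by
  have h := bas_supp (n := n) t.1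
  unfold bp
  split_ifs
  · exact h.comp_left (g := fun y : ℝ => max y 0) (by simp)
  · exact h.comp_left (g := fun y : ℝ => max (-y) 0) (by simp)

theorem bp_nonneg (t : ((ℕ × ℕ) ⊕ ℕ) × Bool) (z : Fin n → ℝ) : 0 ≤ bp t z := by
  unfold bp
  split_ifs
  · exact le_max_right _ _
  · exact le_max_right _ _

theorem bas_eq (t : (ℕ × ℕ) ⊕ ℕ) (z : Fin n → ℝ) : bas t z = bp (t, true) z - bp (t, false) z := by
  unfold bp
  simp only [if_true, Bool.false_eq_true, if_false]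
  rcases le_total 0 (bas t z) with h | h
  · rw [max_eq_left h, max_eq_right (by linarith)]
    ring
  · rw [max_eq_right h, max_eq_left (by linarith)]
    ring

theorem bas_close (X : Spectra M) (L : LocalStat (Fin n → ℝ)) (ν : Measure (Fin n → ℝ))
    [IsFiniteMeasureOnCompacts ν] (t : (ℕ × ℕ) ⊕ ℕ) {δ T : ℝ} {g : M}
    (h1 : |S X L (bp (t, true)) T g - ∫ z, bp (t, true) z ∂ν| < δ / 2)
    (h2 : |S X L (bp (t, false)) T g - ∫ z, bp (t, false) z ∂ν| < δ / 2) :
    |S X L (bas t) T g - ∫ z, bas t z ∂ν| < δ := by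
  have e1 : S X L (bas t) T g = S X L (bp (t, true)) T g - S X L (bp (t, false)) T g := by
    unfold S
    rw [← sub_div, ← Finset.sum_sub_distrib]
    congr 1
    exact Finset.sum_congr rfl fun i _ => bas_eq t _
  have e2 : ∫ z, bas t z ∂ν = (∫ z, bp (t, true) z ∂ν) - ∫ z, bp (t, false) z ∂ν := by
    rw [← integral_sub ((bp_cont _).integrable_of_hasCompactSupport (bp_supp _))
      ((bp_cont _).integrable_of_hasCompactSupport (bp_supp _))]
    exact integral_congr_ae (Eventually.of_forall fun z => bas_eq t z)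
  rw [e1, e2]
  rw [abs_lt] at h1 h2 ⊢
  constructor <;> linarith [h1.1, h1.2, h2.1, h2.2]

end tests

section joint

variable (X : Spectra M) {𝒜 : Type} (d : 𝒜 → ℕ) (L : ∀ a, LocalStat (Fin (d a) → ℝ))

/-- choice of a list of basic nonnegative test functions -/
theorem exists_list' (ν : ∀ a, Measure (Fin (d a) → ℝ)) [∀ a, IsFiniteMeasureOnCompacts (ν a)]
    {n : ℕ} (a : Fin n → 𝒜) (f : ∀ j, (Fin (d (a j)) → ℝ) → ℝ) (hf : ∀ j, Continuous (f j))
    (hs : ∀ j, HasCompactSupport (f j)) {ε : ℝ} (hε : 0 < ε) :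
    ∃ (l : List (𝒜 × (((ℕ × ℕ) ⊕ ℕ) × Bool))) (r : ℕ),
      ∀ (g : M) (T : ℝ), 0 < T →
        (∀ c ∈ l, |S X (L c.1) (bp c.2) T g - ∫ z, bp c.2 z ∂(ν c.1)| < 1 / ((r : ℝ) + 1)) →
        ∀ j, |S X (L (a j)) (f j) T g - ∫ z, f j z ∂(ν (a j))| < ε := by
  choose k m δ hδ hap using fun j => approx X (L (a j)) (ν (a j)) (hf j) (hs j) hε
  obtain ⟨δ0, hδ0, hδ0'⟩ : ∃ δ0 : ℝ, 0 < δ0 ∧ ∀ j, δ0 ≤ δ j := by
    have h1 : ∀ᶠ x : ℝ in 𝓝[>] 0, ∀ j, x ≤ δ j := by
      rw [eventually_all]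
      intro j
      exact mem_nhdsWithin_of_mem_nhds (Iic_mem_nhds (hδ j))
    obtain ⟨x, hx1, hx2⟩ := (h1.and self_mem_nhdsWithin).exists
    exact ⟨x, hx2, hx1⟩
  obtain ⟨r, hr⟩ := exists_nat_one_div_lt (show (0 : ℝ) < δ0 / 2 by positivity)
  refine ⟨(List.finRange n).flatMap fun j =>
    [(a j, (Sum.inl (k j, m j), true)), (a j, (Sum.inl (k j, m j), false)),
     (a j, (Sum.inr (m j), true)), (a j, (Sum.inr (m j), false))], r, ?_⟩
  intro g T hT hl j
  have hmem : ∀ c ∈ [(a j, ((Sum.inl (k j, m j) : (ℕ × ℕ) ⊕ ℕ), true)),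
      (a j, (Sum.inl (k j, m j), false)), (a j, (Sum.inr (m j), true)),
      (a j, (Sum.inr (m j), false))],
      |S X (L c.1) (bp c.2) T g - ∫ z, bp c.2 z ∂(ν c.1)| < δ j / 2 := by
    intro c hc
    have h1 := hl c (List.mem_flatMap.2 ⟨j, List.mem_finRange j, hc⟩)
    have h2 := hδ0' j
    linarith
  have g1 := hmem (a j, (Sum.inl (k j, m j), true)) (by simp)
  have g2 := hmem (a j, (Sum.inl (k j, m j), false)) (by simp)
  have g3 := hmem (a j, (Sum.inr (m j), true)) (by simp)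
  have g4 := hmem (a j, (Sum.inr (m j), false)) (by simp)
  exact hap j g T hT (bas_close X (L (a j)) (ν (a j)) _ g1 g2)
    (bas_close X (L (a j)) (ν (a j)) _ g3 g4)

/-- the statistics are close to `ν` -/
def Cls (ν : ∀ a, Measure (Fin (d a) → ℝ)) {n : ℕ} (a : Fin n → 𝒜)
    (f : ∀ j, (Fin (d (a j)) → ℝ) → ℝ) (ε t : ℝ) (g : M) : Prop :=
  ∀ j, |S X (L (a j)) (f j) t g - ∫ z, f j z ∂(ν (a j))| < ε

/-- the statistics are close to `ν` on windows of heights -/
def Win (ω : ℝ → ℝ) (ν : ∀ a, Measure (Fin (d a) → ℝ)) (g : M) : Prop :=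
  ∀ (n : ℕ) (a : Fin n → 𝒜) (f : ∀ j, (Fin (d (a j)) → ℝ) → ℝ), (∀ j, Continuous (f j)) →
    (∀ j, HasCompactSupport (f j)) → ∀ ε : ℝ, 0 < ε → ∀ T0 : ℝ, ∃ T, T0 ≤ T ∧
      ∀ t ∈ Icc T (ω T), Cls X d L ν a f ε t g

/-- near `g` all windows of heights contain a deviation -/
def Bad (ω : ℝ → ℝ) (ν : ∀ a, Measure (Fin (d a) → ℝ)) (g : M) : Prop :=
  ∃ (n : ℕ) (a : Fin n → 𝒜) (f : ∀ j, (Fin (d (a j)) → ℝ) → ℝ), (∀ j, Continuous (f j)) ∧
    (∀ j, HasCompactSupport (f j)) ∧ ∃ ε : ℝ, 0 < ε ∧ ∃ T0 : ℝ, ∃ V ∈ 𝓝 g, ∀ g' ∈ V, ∀ T, T0 ≤ T →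
      ∃ t ∈ Icc T (ω T), ¬ Cls X d L ν a f ε t g'

theorem isOpen_bad (ω : ℝ → ℝ) (ν : ∀ a, Measure (Fin (d a) → ℝ)) :
    IsOpen {g | Bad X d L ω ν g} := by
  rw [isOpen_iff_mem_nhds]
  rintro g ⟨n, a, f, hf, hs, ε, hε, T0, V, hV, h⟩
  obtain ⟨W, hWV, hW, hgW⟩ := mem_nhds_iff.1 hV
  filter_upwards [hW.mem_nhds hgW] with g' hg'
  exact ⟨n, a, f, hf, hs, ε, hε, T0, V, mem_of_superset (hW.mem_nhds hg') hWV, h⟩

/-- a convergent parameter has good windows -/
theorem win_of_good {ω : ℝ → ℝ} {ν : ∀ a, Measure (Fin (d a) → ℝ)} {g : M}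
    (h : Good X d L ν g) : Win X d L ω ν g := by
  intro n a f hf hs ε hε T0
  have h1 : ∀ᶠ t in atTop, Cls X d L ν a f ε t g := by
    unfold Cls
    rw [eventually_all]
    intro j
    have h2 := Metric.tendsto_nhds.1 (h (a j) (f j) (hf j) (hs j)) ε hε
    simpa only [Real.dist_eq] using h2
  obtain ⟨T1, hT1⟩ := eventually_atTop.1 h1
  exact ⟨max T0 T1, le_max_left _ _, fun t ht => hT1 t ((le_max_right _ _).trans ht.1)⟩

/-- a parameter with good windows is not bad -/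
theorem not_bad_of_win {ω : ℝ → ℝ} {ν : ∀ a, Measure (Fin (d a) → ℝ)} {g : M}
    (h : Win X d L ω ν g) : ¬ Bad X d L ω ν g := by
  rintro ⟨n, a, f, hf, hs, ε, hε, T0, V, hV, hb⟩
  obtain ⟨T, hT, hw⟩ := h n a f hf hs ε hε T0
  obtain ⟨t, ht, hno⟩ := hb g (mem_of_mem_nhds hV) T hT
  exact hno (hw t ht)

variable [Countable 𝒜]

/-- basic conditions -/
def Gd (ω : ℝ → ℝ) (ν : ∀ a, Measure (Fin (d a) → ℝ)) (l : List (𝒜 × (((ℕ × ℕ) ⊕ ℕ) × Bool)))
    (r m : ℕ) : Set M :=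
  {g | ∃ T : ℝ, (m : ℝ) + 1 ≤ T ∧ ∀ t ∈ Icc T (ω T), ∀ c ∈ l,
    |S X (L c.1) (bp c.2) t g - ∫ z, bp c.2 z ∂(ν c.1)| < 1 / ((r : ℝ) + 1)}

omit [Countable 𝒜] in
theorem mem_int (hm : ∀ a, Monotone (L a).I) {ω : ℝ → ℝ} (hω : Continuous ω)
    (ν : ∀ a, Measure (Fin (d a) → ℝ)) (l : List (𝒜 × (((ℕ × ℕ) ⊕ ℕ) × Bool))) (r m : ℕ)
    {T ε : ℝ} (hT : (m : ℝ) + 1 ≤ T) (hε : ε < 1 / ((r : ℝ) + 1)) {g : M}
    (h : ∀ t ∈ Icc T (ω T), ∀ c ∈ l,
      |S X (L c.1) (bp c.2) t g - ∫ z, bp c.2 z ∂(ν c.1)| < ε) :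
    g ∈ interior (Gd X d L ω ν l r m) := by
  have hT0 : 0 < T := by
    have : (0 : ℝ) ≤ m := Nat.cast_nonneg m
    linarith
  have h1 : ∀ᶠ T' in 𝓝[>] T, ∀ c ∈ {c | c ∈ l}, ∀ᶠ g' in 𝓝 g, ∀ t ∈ Icc T' (ω T'),
      |S X (L c.1) (bp c.2) t g' - ∫ z, bp c.2 z ∂(ν c.1)| < 1 / ((r : ℝ) + 1) := by
    rw [l.finite_toSet.eventually_all]
    intro c hc
    exact stab X (L c.1) (hm c.1) (bp_cont c.2) (bp_nonneg c.2) hε hω hT0
      fun t ht => h t ht c hc
  obtain ⟨T', hT'1, hT'2⟩ := (h1.and self_mem_nhdsWithin).exists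
  have h2 : ∀ᶠ g' in 𝓝 g, ∀ c ∈ {c | c ∈ l}, ∀ t ∈ Icc T' (ω T'),
      |S X (L c.1) (bp c.2) t g' - ∫ z, bp c.2 z ∂(ν c.1)| < 1 / ((r : ℝ) + 1) := by
    rw [l.finite_toSet.eventually_all]
    exact hT'1
  rw [mem_interior_iff_mem_nhds]
  filter_upwards [h2] with g' hg'
  have hlt : T < T' := hT'2
  exact ⟨T', by linarith, fun t ht c hc => hg' c hc t ht⟩

/-- The alternative for windows of heights. -/
theorem window_alternative (hm : ∀ a, Monotone (L a).I) {ω : ℝ → ℝ} (hω : Continuous ω)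
    (ν : ∀ a, Measure (Fin (d a) → ℝ)) [∀ a, IsFiniteMeasureOnCompacts (ν a)] :
    ∃ U₁ U₂ : Set M, IsOpen U₁ ∧ IsOpen U₂ ∧ Disjoint U₁ U₂ ∧ Dense (U₁ ∪ U₂) ∧
      (∀ᶠ g in residual M, g ∈ U₁ → Win X d L ω ν g) ∧ ∀ g, g ∈ U₂ ↔ Bad X d L ω ν g := by
  have hO := isOpen_bad X d L ω ν
  set U₂ : Set M := {g | Bad X d L ω ν g} with hU₂
  have hcl : IsOpen (closure U₂)ᶜ := isClosed_closure.isOpen_compl
  refine ⟨(closure U₂)ᶜ, U₂, hcl, hO, ?_, ?_, ?_, fun g => Iff.rfl⟩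
  · exact Set.disjoint_left.2 fun g hg hg' => hg (subset_closure hg')
  · rw [dense_iff_inter_open]
    intro W hW hne
    by_cases h : (W ∩ U₂).Nonempty
    · obtain ⟨g, hg, hg'⟩ := h
      exact ⟨g, hg, Or.inr hg'⟩
    · obtain ⟨g, hg⟩ := hne
      refine ⟨g, hg, Or.inl fun hc => ?_⟩
      rw [mem_closure_iff] at hc
      exact h (hc W hW hg)
  · have key : ∀ p : List (𝒜 × (((ℕ × ℕ) ⊕ ℕ) × Bool)) × ℕ × ℕ, ∀ᶠ g in residual M,
        g ∈ (closure U₂)ᶜ → g ∈ Gd X d L ω ν p.1 p.2.1 p.2.2 := by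
      rintro ⟨l, r, m⟩
      have h1 : IsOpen (interior (Gd X d L ω ν l r m) ∪ U₂) := isOpen_interior.union hO
      have h2 : Dense (interior (Gd X d L ω ν l r m) ∪ U₂) := by
        rw [dense_iff_inter_open]
        intro W hW hne
        by_cases h : (W ∩ U₂).Nonempty
        · obtain ⟨g, hg, hg'⟩ := h
          exact ⟨g, hg, Or.inr hg'⟩
        · obtain ⟨g, hg⟩ := hne
          have hgb : ¬ Bad X d L ω ν g := fun hb => h ⟨g, hg, hb⟩
          -- a parameter in `W` with a good window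
          have h3 : ∃ g' ∈ W, ∃ T, (m : ℝ) + 1 ≤ T ∧ ∀ t ∈ Icc T (ω T),
              Cls X d L ν (fun j : Fin l.length => (l.get j).1) (fun j => bp (l.get j).2)
                (1 / (2 * ((r : ℝ) + 1))) t g' := by
            by_contra hcon
            apply hgb
            refine ⟨l.length, fun j => (l.get j).1, fun j => bp (l.get j).2,
              fun j => bp_cont _, fun j => bp_supp _, 1 / (2 * ((r : ℝ) + 1)), by positivity,
              (m : ℝ) + 1, W, hW.mem_nhds hg, fun g' hg' T hT => ?_⟩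
            by_contra hno
            apply hcon
            refine ⟨g', hg', T, hT, fun t ht => ?_⟩
            by_contra hno2
            exact hno ⟨t, ht, hno2⟩
          obtain ⟨g', hg', T, hT, hw⟩ := h3
          refine ⟨g', hg', Or.inl ?_⟩
          refine mem_int X d L hm hω ν l r m hT (ε := 1 / (2 * ((r : ℝ) + 1))) ?_ ?_
          · rw [div_lt_div_iff₀ (by positivity) (by positivity)]
            have : (0 : ℝ) ≤ r := Nat.cast_nonneg r
            linarith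
          · intro t ht c hc
            obtain ⟨j, rfl⟩ := List.get_of_mem hc
            exact hw t ht j
      filter_upwards [residual_of_dense_open h1 h2] with g hg hgU
      rcases hg with h | h
      · exact interior_subset h
      · exact absurd (subset_closure h) hgU
    filter_upwards [eventually_countable_forall.2 key] with g hg hgU
    intro n a f hf hs ε hε T0
    obtain ⟨l, r, hl⟩ := exists_list' X d L ν a f hf hs hε
    obtain ⟨m, hm'⟩ := exists_nat_ge T0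
    obtain ⟨T, hT, hw⟩ := hg (l, r, m) hgU
    simp only at hT hw
    have hm0 : (0 : ℝ) ≤ m := Nat.cast_nonneg m
    refine ⟨T, by linarith, fun t ht => ?_⟩
    exact hl g t (by linarith [ht.1]) (hw t ht)

/-- a dense set of parameters with good windows is residual -/
theorem window_dense (hm : ∀ a, Monotone (L a).I) {ω : ℝ → ℝ} (hω : Continuous ω)
    (ν : ∀ a, Measure (Fin (d a) → ℝ)) [∀ a, IsFiniteMeasureOnCompacts (ν a)] {U : Set M}
    (hU : IsOpen U) (hd : U ⊆ closure {g | Win X d L ω ν g}) :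
    ∀ᶠ g in residual M, g ∈ U → Win X d L ω ν g := by
  obtain ⟨U₁, U₂, h1, h2, -, h4, h5, h6⟩ := window_alternative X d L hm hω ν
  have hempty : ∀ g ∈ U, g ∉ U₂ := by
    intro g hg hg2
    have h7 := hd hg
    rw [mem_closure_iff] at h7
    obtain ⟨g', ⟨-, hg'2⟩, hg'⟩ := h7 (U ∩ U₂) (hU.inter h2) ⟨hg, hg2⟩
    exact not_bad_of_win X d L hg' ((h6 g').1 hg'2)
  filter_upwards [h5, residual_of_dense_open (h1.union h2) h4] with g hg hg' hgU
  rcases hg' with h | h
  · exact hg h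
  · exact absurd h (hempty g hgU)

omit [Countable 𝒜] in
/-- The oscillation on windows of heights: if the parameters for which the statistics converge, to
any limits, are dense, then the statistics of the generic parameter are almost constant on windows. -/
theorem window_osc (hm : ∀ a, Monotone (L a).I) {ω : ℝ → ℝ} (hω : Continuous ω) {n : ℕ}
    (a : Fin n → 𝒜) (f : ∀ j, (Fin (d (a j)) → ℝ) → ℝ) (hf : ∀ j, Continuous (f j))
    (hs : ∀ j, HasCompactSupport (f j)) {U : Set M} (hU : IsOpen U)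
    (hd : U ⊆ closure {g | ∀ a, ∀ f : (Fin (d a) → ℝ) → ℝ, Continuous f → HasCompactSupport f →
      ∃ c, Tendsto (fun T => S X (L a) f T g) atTop (𝓝 c)}) :
    ∀ᶠ g in residual M, g ∈ U → ∀ ε : ℝ, 0 < ε → ∀ T0 : ℝ, ∃ T, T0 ≤ T ∧ ∃ c : Fin n → ℝ,
      ∀ t ∈ Icc T (ω T), ∀ j, |S X (L (a j)) (f j) t g - c j| < ε := by
  set f₁ : ∀ j, (Fin (d (a j)) → ℝ) → ℝ := fun j z => max (f j z) 0 with hf₁
  set f₂ : ∀ j, (Fin (d (a j)) → ℝ) → ℝ := fun j z => max (-f j z) 0 with hf₂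
  have c₁ : ∀ j, Continuous (f₁ j) := fun j => (hf j).max continuous_const
  have c₂ : ∀ j, Continuous (f₂ j) := fun j => (hf j).neg.max continuous_const
  have s₁ : ∀ j, HasCompactSupport (f₁ j) := fun j =>
    (hs j).comp_left (g := fun y : ℝ => max y 0) (by simp)
  have s₂ : ∀ j, HasCompactSupport (f₂ j) := fun j =>
    (hs j).comp_left (g := fun y : ℝ => max (-y) 0) (by simp)
  have p₁ : ∀ j z, 0 ≤ f₁ j z := fun j z => le_max_right _ _
  have p₂ : ∀ j z, 0 ≤ f₂ j z := fun j z => le_max_right _ _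
  have hsub : ∀ j z, f j z = f₁ j z - f₂ j z := by
    intro j z
    simp only [hf₁, hf₂]
    rcases le_total 0 (f j z) with h | h
    · rw [max_eq_left h, max_eq_right (by linarith)]
      ring
    · rw [max_eq_right h, max_eq_left (by linarith)]
      ring
  have key : ∀ p : ℕ × ℕ, ∀ᶠ g in residual M, g ∈ U → ∃ T : ℝ, (p.2 : ℝ) + 1 ≤ T ∧
      ∃ q₁ q₂ : Fin n → ℝ, ∀ t ∈ Icc T (ω T), ∀ j,
        |S X (L (a j)) (f₁ j) t g - q₁ j| < 1 / ((p.1 : ℝ) + 1) ∧
        |S X (L (a j)) (f₂ j) t g - q₂ j| < 1 / ((p.1 : ℝ) + 1) := by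
    rintro ⟨r, m⟩
    set G : Set M := {g | ∃ T : ℝ, (m : ℝ) + 1 ≤ T ∧
      ∃ q₁ q₂ : Fin n → ℝ, ∀ t ∈ Icc T (ω T), ∀ j,
        |S X (L (a j)) (f₁ j) t g - q₁ j| < 1 / ((r : ℝ) + 1) ∧
        |S X (L (a j)) (f₂ j) t g - q₂ j| < 1 / ((r : ℝ) + 1)} with hG
    have hpos : 1 / (2 * ((r : ℝ) + 1)) < 1 / ((r : ℝ) + 1) := by
      rw [div_lt_div_iff₀ (by positivity) (by positivity)]
      have : (0 : ℝ) ≤ r := Nat.cast_nonneg r
      linarith
    have h1 : {g | ∀ a, ∀ f : (Fin (d a) → ℝ) → ℝ, Continuous f → HasCompactSupport f →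
        ∃ c, Tendsto (fun T => S X (L a) f T g) atTop (𝓝 c)} ⊆ interior G := by
      intro g hg
      choose q₁ hq₁ using fun j => hg (a j) (f₁ j) (c₁ j) (s₁ j)
      choose q₂ hq₂ using fun j => hg (a j) (f₂ j) (c₂ j) (s₂ j)
      have e1 : ∀ᶠ t in atTop, ∀ j, |S X (L (a j)) (f₁ j) t g - q₁ j| < 1 / (2 * ((r : ℝ) + 1)) ∧
          |S X (L (a j)) (f₂ j) t g - q₂ j| < 1 / (2 * ((r : ℝ) + 1)) := by
        rw [eventually_all]
        intro j
        have h2 := Metric.tendsto_nhds.1 (hq₁ j) (1 / (2 * ((r : ℝ) + 1))) (by positivity)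
        have h3 := Metric.tendsto_nhds.1 (hq₂ j) (1 / (2 * ((r : ℝ) + 1))) (by positivity)
        filter_upwards [h2, h3] with t h2 h3
        rw [Real.dist_eq] at h2 h3
        exact ⟨h2, h3⟩
      obtain ⟨T1, hT1⟩ := eventually_atTop.1 e1
      set T := max T1 ((m : ℝ) + 1) with hT
      have hTm : (m : ℝ) + 1 ≤ T := le_max_right _ _
      have hT0 : 0 < T := by
        have : (0 : ℝ) ≤ m := Nat.cast_nonneg m
        linarith
      have hw : ∀ t ∈ Icc T (ω T), ∀ j,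
          |S X (L (a j)) (f₁ j) t g - q₁ j| < 1 / (2 * ((r : ℝ) + 1)) ∧
          |S X (L (a j)) (f₂ j) t g - q₂ j| < 1 / (2 * ((r : ℝ) + 1)) := fun t ht =>
        hT1 t ((le_max_left _ _).trans ht.1)
      have h3 : ∀ᶠ T' in 𝓝[>] T, ∀ j, ∀ᶠ g' in 𝓝 g, ∀ t ∈ Icc T' (ω T'),
          |S X (L (a j)) (f₁ j) t g' - q₁ j| < 1 / ((r : ℝ) + 1) := by
        rw [eventually_all]
        exact fun j => stab X (L (a j)) (hm (a j)) (c₁ j) (p₁ j) hpos hω hT0
          fun t ht => (hw t ht j).1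
      have h4 : ∀ᶠ T' in 𝓝[>] T, ∀ j, ∀ᶠ g' in 𝓝 g, ∀ t ∈ Icc T' (ω T'),
          |S X (L (a j)) (f₂ j) t g' - q₂ j| < 1 / ((r : ℝ) + 1) := by
        rw [eventually_all]
        exact fun j => stab X (L (a j)) (hm (a j)) (c₂ j) (p₂ j) hpos hω hT0
          fun t ht => (hw t ht j).2
      obtain ⟨T', ⟨h5, h6⟩, h7⟩ := ((h3.and h4).and self_mem_nhdsWithin).exists
      have hlt : T < T' := h7
      rw [mem_interior_iff_mem_nhds]
      filter_upwards [eventually_all.2 h5, eventually_all.2 h6] with g' h8 h9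
      exact ⟨T', by linarith, q₁, q₂, fun t ht j => ⟨h8 j t ht, h9 j t ht⟩⟩
    have h2 : IsOpen (interior G ∪ (closure U)ᶜ) :=
      isOpen_interior.union isClosed_closure.isOpen_compl
    have h3 : Dense (interior G ∪ (closure U)ᶜ) := by
      rw [dense_iff_inter_open]
      intro W hW hne
      by_cases hWU : (W ∩ U).Nonempty
      · obtain ⟨g, hgW, hgU⟩ := hWU
        have h4 := hd hgU
        rw [mem_closure_iff] at h4
        obtain ⟨g', ⟨hg'W, -⟩, hg'⟩ := h4 (W ∩ U) (hW.inter hU) ⟨hgW, hgU⟩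
        exact ⟨g', hg'W, Or.inl (h1 hg')⟩
      · obtain ⟨g, hg⟩ := hne
        refine ⟨g, hg, Or.inr fun hcl => ?_⟩
        rw [mem_closure_iff] at hcl
        exact hWU (hcl W hW hg)
    filter_upwards [residual_of_dense_open h2 h3] with g hg hgU
    rcases hg with h | h
    · have h5 : g ∈ G := interior_subset h
      exact h5
    · exact absurd (subset_closure hgU) h
  filter_upwards [eventually_countable_forall.2 key] with g hg hgU ε hε T0
  obtain ⟨r, hr⟩ := exists_nat_one_div_lt (show (0 : ℝ) < ε / 2 by positivity)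
  obtain ⟨m, hm'⟩ := exists_nat_ge T0
  obtain ⟨T, hT, q₁, q₂, hq⟩ := hg (r, m) hgU
  simp only at hT hq
  refine ⟨T, by linarith, fun j => q₁ j - q₂ j, fun t ht j => ?_⟩
  have e1 : S X (L (a j)) (f j) t g = S X (L (a j)) (f₁ j) t g - S X (L (a j)) (f₂ j) t g := by
    unfold S
    rw [← sub_div, ← Finset.sum_sub_distrib]
    congr 1
    exact Finset.sum_congr rfl fun i _ => hsub j _
  rw [e1]
  have h1 := (hq t ht j).1
  have h2 := (hq t ht j).2
  rw [abs_lt] at h1 h2 ⊢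
  constructor <;> linarith [h1.1, h1.2, h2.1, h2.2]

/-- Good windows: there is a set of heights which contains windows, along which all statistics
converge. -/
theorem win_iff (ω : ℝ → ℝ) (ν : ∀ a, Measure (Fin (d a) → ℝ))
    [∀ a, IsFiniteMeasureOnCompacts (ν a)] (g : M) :
    Win X d L ω ν g ↔ ∃ 𝒯 : Set ℝ, (∀ T0 : ℝ, ∃ T, T0 ≤ T ∧ Icc T (ω T) ⊆ 𝒯) ∧
      ∀ a, ∀ f : (Fin (d a) → ℝ) → ℝ, Continuous f → HasCompactSupport f →
        Tendsto (fun T => S X (L a) f T g) (atTop ⊓ 𝓟 𝒯) (𝓝 (∫ z, f z ∂(ν a))) := by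
  constructor
  · intro h
    obtain ⟨enc, henc⟩ := exists_injective_nat (𝒜 × (((ℕ × ℕ) ⊕ ℕ) × Bool))
    have hfin : ∀ n : ℕ, {c | enc c < n}.Finite := fun n =>
      (Set.finite_Iio n).preimage henc.injOn
    have hstep : ∀ n : ℕ, ∃ T : ℝ, (n : ℝ) + 1 ≤ T ∧ ∀ t ∈ Icc T (ω T), ∀ c, enc c < n →
        |S X (L c.1) (bp c.2) t g - ∫ z, bp c.2 z ∂(ν c.1)| < 1 / ((n : ℝ) + 1) := by
      intro n
      set l := (hfin n).toFinset.toList with hl
      obtain ⟨T, hT, hw⟩ := h l.length (fun j => (l.get j).1) (fun j => bp (l.get j).2)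
        (fun j => bp_cont _) (fun j => bp_supp _) (1 / ((n : ℝ) + 1)) (by positivity)
        ((n : ℝ) + 1)
      refine ⟨T, hT, fun t ht c hc => ?_⟩
      have hmem : c ∈ l := by
        rw [hl, Finset.mem_toList, Set.Finite.mem_toFinset]
        exact hc
      obtain ⟨j, rfl⟩ := List.get_of_mem hmem
      exact hw t ht j
    choose T hT hw using hstep
    refine ⟨⋃ n, Icc (T n) (ω (T n)), ?_, ?_⟩
    · intro T0
      obtain ⟨n, hn⟩ := exists_nat_ge T0
      exact ⟨T n, by linarith [hT n], subset_iUnion (fun n => Icc (T n) (ω (T n))) n⟩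
    · intro a f hf hs
      rw [Metric.tendsto_nhds]
      intro ε hε
      obtain ⟨l, r, hl⟩ := exists_list' X d L ν (n := 1) (fun _ => a) (fun _ => f)
        (fun _ => hf) (fun _ => hs) hε
      obtain ⟨N, hN⟩ : ∃ N : ℕ, ∀ c ∈ l, enc c < N := by
        refine ⟨(l.map enc).sum + 1, fun c hc => ?_⟩
        have := List.single_le_sum (l := l.map enc) (fun x _ => Nat.zero_le x) (enc c)
          (List.mem_map_of_mem hc)
        omega
      set N' := max N r with hN'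
      -- the windows with small numbers are bounded
      obtain ⟨B, hB⟩ : ∃ B : ℝ, ∀ n < N', ω (T n) < B := by
        refine ⟨∑ n ∈ Finset.range N', |ω (T n)| + 1, fun n hn => ?_⟩
        have h1 := Finset.single_le_sum (f := fun n => |ω (T n)|) (fun i _ => abs_nonneg _)
          (Finset.mem_range.2 hn)
        have h2 := le_abs_self (ω (T n))
        linarith
      rw [eventually_inf_principal]
      filter_upwards [eventually_ge_atTop B, eventually_gt_atTop 0] with t ht ht0 htm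
      obtain ⟨n, hn⟩ := mem_iUnion.1 htm
      have hnN : N' ≤ n := by
        by_contra hcon
        push Not at hcon
        have := hB n hcon
        linarith [hn.2]
      have h3 := hl g t ht0 (fun c hc => by
        have h4 := hw n t hn c (lt_of_lt_of_le (hN c hc) ((le_max_left _ _).trans hnN))
        refine h4.trans_le ?_
        have h5 : (r : ℝ) ≤ n := by exact_mod_cast (le_max_right N r).trans hnN
        exact one_div_le_one_div_of_le (by positivity) (by linarith)) 0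
      rw [Real.dist_eq]
      exact h3
  · rintro ⟨𝒯, h1, h2⟩ n a f hf hs ε hε T0
    have h3 : ∀ᶠ t in atTop ⊓ 𝓟 𝒯, Cls X d L ν a f ε t g := by
      unfold Cls
      rw [eventually_all]
      intro j
      have h4 := Metric.tendsto_nhds.1 (h2 (a j) (f j) (hf j) (hs j)) ε hε
      simpa only [Real.dist_eq] using h4
    rw [eventually_inf_principal] at h3
    obtain ⟨T1, hT1⟩ := eventually_atTop.1 h3
    obtain ⟨T, hT, hsub⟩ := h1 (max T0 T1)
    exact ⟨T, (le_max_left _ _).trans hT, fun t ht =>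
      hT1 t (((le_max_right _ _).trans hT).trans ht.1) (hsub ht)⟩

end joint

/-- a set which contains long windows has upper density one -/
theorem density_of_subset {𝒯 : Set ℝ} (h : ∀ T0 : ℝ, ∃ T, T0 ≤ T ∧ Icc T (T ^ 2) ⊆ 𝒯) {η : ℝ}
    (hη : 0 < η) (T0 : ℝ) : ∃ T, T0 ≤ T ∧ 0 < T ∧
      volume (Icc 0 T \ 𝒯) ≤ ENNReal.ofReal (η * T) := by
  obtain ⟨T, hT, hw⟩ := h (max T0 (max 1 (1 / η)))
  have h1 : T0 ≤ T := (le_max_left _ _).trans hT
  have h2 : 1 ≤ T := ((le_max_left _ _).trans (le_max_right _ _)).trans hT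
  have h3 : 1 / η ≤ T := ((le_max_right _ _).trans (le_max_right _ _)).trans hT
  have h4 : T ≤ T ^ 2 := by nlinarith
  refine ⟨T ^ 2, h1.trans h4, by positivity, ?_⟩
  have hsub : Icc 0 (T ^ 2) \ 𝒯 ⊆ Icc 0 T := by
    rintro t ⟨⟨ht1, ht2⟩, ht3⟩
    refine ⟨ht1, ?_⟩
    by_contra hcon
    push Not at hcon
    exact ht3 (hw ⟨hcon.le, ht2⟩)
  refine (measure_mono hsub).trans ?_
  rw [Real.volume_Icc, sub_zero]
  apply ENNReal.ofReal_le_ofReal
  rw [div_le_iff₀ hη] at h3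
  nlinarith

/-- windows give upper density one -/
theorem density_of_window {P : ℝ → Prop} {ω : ℝ → ℝ} (hω : ∀ T, T ^ 2 ≤ ω T)
    (h : ∀ T0 : ℝ, ∃ T, T0 ≤ T ∧ ∀ t ∈ Icc T (ω T), P t) {η : ℝ} (hη : 0 < η) (T0 : ℝ) :
    ∃ T, T0 ≤ T ∧ 0 < T ∧ volume {t | 0 ≤ t ∧ t ≤ T ∧ ¬ P t} ≤ ENNReal.ofReal (η * T) := by
  obtain ⟨T, hT, hw⟩ := h (max T0 (max 1 (1 / η)))
  have h1 : T0 ≤ T := (le_max_left _ _).trans hT
  have h2 : 1 ≤ T := ((le_max_left _ _).trans (le_max_right _ _)).trans hT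
  have h3 : 1 / η ≤ T := ((le_max_right _ _).trans (le_max_right _ _)).trans hT
  have h4 : T ≤ T ^ 2 := by nlinarith
  refine ⟨T ^ 2, h1.trans h4, by positivity, ?_⟩
  have hsub : {t | 0 ≤ t ∧ t ≤ T ^ 2 ∧ ¬ P t} ⊆ Icc 0 T := by
    rintro t ⟨ht1, ht2, ht3⟩
    refine ⟨ht1, ?_⟩
    by_contra hcon
    push Not at hcon
    exact ht3 (hw t ⟨hcon.le, ht2.trans (hω T)⟩)
  refine (measure_mono hsub).trans ?_
  rw [Real.volume_Icc, sub_zero]
  apply ENNReal.ofReal_le_ofReal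
  rw [div_le_iff₀ hη] at h3
  nlinarith

end Pool.Agent.K7.H40.GM
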